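import Pool.Agent.Slir.Extend

/-!
If the tails of all arcs have indegree at most `a` and the heads of all arcs have outdegree at most
`b`, where `a + b ≤ 2 c` and `c ≥ 2`, then `c` colours suffice.
-/

namespace Pool.Agent.Slir.Deg

open Finset

variable {V : Type*} [DecidableEq V]

theorem outdeg_add {W E : Finset (V × V)} (h : W ⊆ E) (v : V) :
    outdeg W v + outdeg (E \ W) v = outdeg E v := by
  unfold outdeg
  rw [← Finset.card_union_of_disjoint]
  · rw [← Finset.filter_union, Finset.union_sdiff_of_subset h]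
  · exact (Finset.disjoint_filter_filter Finset.disjoint_sdiff)

theorem indeg_add {W E : Finset (V × V)} (h : W ⊆ E) (v : V) :
    indeg W v + indeg (E \ W) v = indeg E v := by
  unfold indeg
  rw [← Finset.card_union_of_disjoint]
  · rw [← Finset.filter_union, Finset.union_sdiff_of_subset h]
  · exact (Finset.disjoint_filter_filter Finset.disjoint_sdiff)

theorem outdeg_pos {A : Finset (V × V)} {e : V × V} (he : e ∈ A) : 0 < outdeg A e.1 :=
  Finset.card_pos.2 ⟨e, by simp [he]⟩

theorem indeg_pos {A : Finset (V × V)} {e : V × V} (he : e ∈ A) : 0 < indeg A e.2 :=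
  Finset.card_pos.2 ⟨e, by simp [he]⟩

theorem outdeg_zero {A : Finset (V × V)} {v : V} (h : ∀ e ∈ A, e.1 ≠ v) : outdeg A v = 0 := by
  unfold outdeg
  rw [Finset.card_eq_zero, Finset.filter_eq_empty_iff]
  exact fun e he => h e he

theorem indeg_zero {A : Finset (V × V)} {v : V} (h : ∀ e ∈ A, e.2 ≠ v) : indeg A v = 0 := by
  unfold indeg
  rw [Finset.card_eq_zero, Finset.filter_eq_empty_iff]
  exact fun e he => h e he

theorem eq_of_outdeg_one {E : Finset (V × V)} {e f : V × V} (he : e ∈ E) (hf : f ∈ E)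
    (h : e.1 = f.1) (h1 : outdeg E f.1 = 1) : e = f := by
  unfold outdeg at h1
  exact Finset.card_le_one.1 h1.le e (by simp [he, h]) f (by simp [hf])

theorem eq_of_indeg_one {E : Finset (V × V)} {e f : V × V} (he : e ∈ E) (hf : f ∈ E)
    (h : e.2 = f.2) (h1 : indeg E f.2 = 1) : e = f := by
  unfold indeg at h1
  exact Finset.card_le_one.1 h1.le e (by simp [he, h]) f (by simp [hf])

theorem degree_colouring [Fintype V] (E : Finset (V × V)) (hE : ∀ e ∈ E, e.1 ≠ e.2) (m a b : ℕ)
    (hab : a + b = 2 * m + 4) (hdeg : ∀ e ∈ E, indeg E e.1 ≤ a ∧ outdeg E e.2 ≤ b) :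
    ∃ f : V × V → Fin (m + 2), ∀ i, SLI (E.filter (fun e => f e = i)) := by
  classical
  -- the steep arcs
  set S : Finset (V × V) := E.filter (fun e => outdeg E e.1 = 1 ∧ indeg E e.1 = a ∧
    outdeg E e.2 = b ∧ indeg E e.2 = 1) with hS
  have hSmem : ∀ e, e ∈ S ↔ e ∈ E ∧ outdeg E e.1 = 1 ∧ indeg E e.1 = a ∧
      outdeg E e.2 = b ∧ indeg E e.2 = 1 := by
    intro e
    rw [hS, Finset.mem_filter]
  set W : Finset (V × V) := E.filter (fun e => e ∈ S ∨ (∃ s ∈ S, s.1 = e.2) ∨
    (∃ s ∈ S, s.2 = e.1)) with hW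
  have hWmem : ∀ e, e ∈ W ↔ e ∈ E ∧ (e ∈ S ∨ (∃ s ∈ S, s.1 = e.2) ∨ (∃ s ∈ S, s.2 = e.1)) := by
    intro e
    rw [hW, Finset.mem_filter]
  have hSE : S ⊆ E := Finset.filter_subset _ _
  have hWE : W ⊆ E := Finset.filter_subset _ _
  have hSW : S ⊆ W := fun e he => (hWmem e).2 ⟨hSE he, Or.inl he⟩
  -- no vertex is the tail of a steep arc and the head of a steep arc
  have hPQ : ∀ s ∈ S, ∀ t ∈ S, s.1 ≠ t.2 := by
    intro s hs t ht h
    obtain ⟨-, h1, h2, -, -⟩ := (hSmem s).1 hs
    obtain ⟨-, -, -, h3, h4⟩ := (hSmem t).1 ht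
    rw [h] at h1 h2
    omega
  -- arcs leaving a tail and arcs entering a head of a steep arc are that arc
  have hF1 : ∀ s ∈ S, ∀ e ∈ E, e.1 = s.1 → e = s := fun s hs e he h =>
    eq_of_outdeg_one he (hSE hs) h ((hSmem s).1 hs).2.1
  have hF2 : ∀ s ∈ S, ∀ e ∈ E, e.2 = s.2 → e = s := fun s hs e he h =>
    eq_of_indeg_one he (hSE hs) h ((hSmem s).1 hs).2.2.2.2
  -- the ends of steep arcs meet no free arc
  have hz1 : ∀ s ∈ S, outdeg (E \ W) s.1 = 0 := fun s hs => outdeg_zero fun e he h => by
    rw [Finset.mem_sdiff] at he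
    exact he.2 (hSW ((hF1 s hs e he.1 h).symm ▸ hs))
  have hz2 : ∀ s ∈ S, indeg (E \ W) s.1 = 0 := fun s hs => indeg_zero fun e he h => by
    rw [Finset.mem_sdiff] at he
    exact he.2 ((hWmem e).2 ⟨he.1, Or.inr (Or.inl ⟨s, hs, h.symm⟩)⟩)
  have hz3 : ∀ s ∈ S, outdeg (E \ W) s.2 = 0 := fun s hs => outdeg_zero fun e he h => by
    rw [Finset.mem_sdiff] at he
    exact he.2 ((hWmem e).2 ⟨he.1, Or.inr (Or.inr ⟨s, hs, h.symm⟩)⟩)
  have hz4 : ∀ s ∈ S, indeg (E \ W) s.2 = 0 := fun s hs => indeg_zero fun e he h => by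
    rw [Finset.mem_sdiff] at he
    exact he.2 (hSW ((hF2 s hs e he.1 h).symm ▸ hs))
  let g : V × V → Fin (m + 1 + 1) := fun e => if e ∈ S then 0 else 1
  have hg0 : ∀ e ∈ S, W.filter (fun x => g x = g e) = S := by
    intro e he
    ext x
    simp only [Finset.mem_filter, g, he, if_true]
    constructor
    · rintro ⟨_, h⟩
      by_contra hcon
      simp [hcon] at h
    · intro h
      exact ⟨hSW h, by simp [h]⟩
  have hg1 : ∀ e, e ∉ S → W.filter (fun x => g x = g e) = W \ S := by
    intro e he
    ext x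
    simp only [Finset.mem_filter, Finset.mem_sdiff, g, he, if_false]
    constructor
    · rintro ⟨h1, h⟩
      refine ⟨h1, fun h2 => ?_⟩
      simp [h2] at h
    · rintro ⟨h1, h2⟩
      exact ⟨h1, by simp [h2]⟩
  have hU : ∀ e ∈ E \ W, bal E e.2 < bal E e.1 + 2 * ((m + 1 : ℕ) : ℤ) := by
    -- free arcs are not steep
    intro e he
    rw [Finset.mem_sdiff] at he
    have h1 := outdeg_pos he.1
    have h2 := indeg_pos he.1
    obtain ⟨h3, h4⟩ := hdeg e he.1
    by_contra hcon
    apply he.2
    apply hSW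
    rw [hSmem]
    unfold bal at hcon
    push_cast at hcon
    refine ⟨he.1, ?_, ?_, ?_, ?_⟩ <;> omega
  have hW' : ∀ e ∈ W,
      ((indeg (E \ W) e.1 : ℤ) + outdeg (E \ W) e.2 <
        bal (W.filter (fun x => g x = g e)) e.1 - bal (W.filter (fun x => g x = g e)) e.2) ∨
      ((outdeg (E \ W) e.1 : ℤ) + indeg (E \ W) e.2 <
        bal (W.filter (fun x => g x = g e)) e.2 - bal (W.filter (fun x => g x = g e)) e.1) := by
    intro e he
    have heE := hWE he
    by_cases heS : e ∈ S
    · left
      rw [hg0 e heS, hz2 e heS, hz3 e heS]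
      have h1 := outdeg_pos heS
      have h2 := indeg_pos heS
      have h3 : indeg S e.1 = 0 := indeg_zero fun s hs h => hPQ e heS s hs h.symm
      have h4 : outdeg S e.2 = 0 := outdeg_zero fun s hs h => hPQ s hs e heS h
      unfold bal
      push_cast
      omega
    · have heA : e ∈ W \ S := Finset.mem_sdiff.2 ⟨he, heS⟩
      rcases ((hWmem e).1 he).2 with h | ⟨s, hs, hs1⟩ | ⟨s, hs, hs2⟩
      · exact absurd h heS
      · -- an arc entering the tail of a steep arc
        left
        rw [hg1 e heS]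
        have h1 := outdeg_pos heA
        have h3 := (hdeg e heE).1
        have h4 := indeg_add hWE e.1
        have h5 : indeg (W \ S) e.1 ≤ indeg W e.1 := by
          unfold indeg
          exact Finset.card_le_card (Finset.filter_subset_filter _ Finset.sdiff_subset)
        have h6 : outdeg (W \ S) e.2 = 0 := outdeg_zero fun x hx h => by
          rw [Finset.mem_sdiff] at hx
          exact hx.2 ((hF1 s hs x (hWE hx.1) (h.trans hs1.symm)).symm ▸ hs)
        have h7 : indeg (W \ S) e.2 = a := by
          have h8 := indeg_add hWE e.2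
          have h9 := indeg_add hSW e.2
          have h10 : indeg S e.2 = 0 := indeg_zero fun x hx h =>
            hPQ s hs x hx (hs1.trans h.symm)
          have h13 := hz2 s hs
          have h14 := ((hSmem s).1 hs).2.2.1
          rw [hs1] at h13 h14
          omega
        have h15 := hz1 s hs
        rw [hs1] at h15
        unfold bal
        omega
      · -- an arc leaving the head of a steep arc
        left
        rw [hg1 e heS]
        have h1 := indeg_pos heA
        have h3 := (hdeg e heE).2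
        have h4 := outdeg_add hWE e.2
        have h5 : outdeg (W \ S) e.2 ≤ outdeg W e.2 := by
          unfold outdeg
          exact Finset.card_le_card (Finset.filter_subset_filter _ Finset.sdiff_subset)
        have h6 : indeg (W \ S) e.1 = 0 := indeg_zero fun x hx h => by
          rw [Finset.mem_sdiff] at hx
          exact hx.2 ((hF2 s hs x (hWE hx.1) (h.trans hs2.symm)).symm ▸ hs)
        have h7 : outdeg (W \ S) e.1 = b := by
          have h8 := outdeg_add hWE e.1
          have h9 := outdeg_add hSW e.1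
          have h10 : outdeg S e.1 = 0 := outdeg_zero fun x hx h =>
            hPQ x hx s hs (h.trans hs2.symm)
          have h13 := hz3 s hs
          have h14 := ((hSmem s).1 hs).2.2.2.1
          rw [hs2] at h13 h14
          omega
        have h15 := hz4 s hs
        rw [hs2] at h15
        unfold bal
        omega
  obtain ⟨f, -, hf, -⟩ := Ext.extend_colouring E W hE hWE (c := m + 1) g hU hW'
  exact ⟨f, hf⟩

end Pool.Agent.Slir.Deg
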