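import Pool.Agent.Slir.Basic

/-!
A potential function for `k` colours: all arcs but the steep ascending ones can be made descending
inside their colour classes at the same time, whatever the colours of the other arcs are. Digraphs
with bounded degrees.
-/

namespace Pool.Agent.Slir

open Finset

variable {V : Type*} [DecidableEq V]

theorem class_update_same {k : ℕ} (E : Finset (V × V)) (c : V × V → Fin k) (e : V × V)
    (he : e ∈ E) (j : Fin k) :
    E.filter (fun f => Function.update c e j f = j) = insert e (E.filter (fun f => c f = j)) := by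
  ext f
  rw [mem_filter, mem_insert, mem_filter]
  by_cases h : f = e
  · subst h
    simp [he]
  · rw [Function.update_of_ne h]
    simp [h]

theorem class_update_old {k : ℕ} (E : Finset (V × V)) (c : V × V → Fin k) (e : V × V)
    (j : Fin k) (hj : c e ≠ j) :
    E.filter (fun f => Function.update c e j f = c e) = (E.filter (fun f => c f = c e)).erase e := by
  ext f
  rw [mem_filter, mem_erase, mem_filter]
  by_cases h : f = e
  · subst h
    simp [hj.symm]
  · rw [Function.update_of_ne h]
    simp [h]

theorem class_update_other {k : ℕ} (E : Finset (V × V)) (c : V × V → Fin k) (e : V × V)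
    (j m : Fin k) (hm : m ≠ j) (hm' : m ≠ c e) :
    E.filter (fun f => Function.update c e j f = m) = E.filter (fun f => c f = m) := by
  ext f
  rw [mem_filter, mem_filter]
  by_cases h : f = e
  · subst h
    simp [hm.symm, hm'.symm]
  · rw [Function.update_of_ne h]

theorem bal_classes {k : ℕ} (E : Finset (V × V)) (c : V × V → Fin k) (v : V) :
    ∑ i, bal (E.filter (fun f => c f = i)) v = bal E v := by
  unfold bal outdeg indeg
  rw [Finset.sum_sub_distrib, ← Nat.cast_sum, ← Nat.cast_sum]
  have h1 : ∑ i, ((E.filter (fun f => c f = i)).filter (fun f => f.1 = v)).card =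
      (E.filter (fun f => f.1 = v)).card := by
    rw [Finset.card_eq_sum_card_fiberwise (f := c) (t := Finset.univ) (fun _ _ => by simp)]
    refine Finset.sum_congr rfl fun i _ => ?_
    rw [Finset.filter_comm]
  have h2 : ∑ i, ((E.filter (fun f => c f = i)).filter (fun f => f.2 = v)).card =
      (E.filter (fun f => f.2 = v)).card := by
    rw [Finset.card_eq_sum_card_fiberwise (f := c) (t := Finset.univ) (fun _ _ => by simp)]
    refine Finset.sum_congr rfl fun i _ => ?_
    rw [Finset.filter_comm]
  rw [h1, h2]

/-- The potential function argument: the colours on `U` are prescribed. -/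
theorem exists_flat [Fintype V] (E : Finset (V × V)) (hE : ∀ e ∈ E, e.1 ≠ e.2) (k : ℕ)
    (U : Finset (V × V)) (c₀ : V × V → Fin k) :
    ∃ c : V × V → Fin k, (∀ e ∈ U, c e = c₀ e) ∧
      ∀ e ∈ E, e ∉ U → bal E e.2 - bal E e.1 ≤ 2 * (k : ℤ) - 3 →
        bal (E.filter (fun f => c f = c e)) e.2 < bal (E.filter (fun f => c f = c e)) e.1 := by
  classical
  obtain ⟨c, hc, hmax⟩ := Finset.exists_max_image
    ((Finset.univ : Finset (V × V → Fin k)).filter (fun c => ∀ e ∈ U, c e = c₀ e))
    (fun c => ∑ i, ∑ v, (bal (E.filter (fun f => c f = i)) v) ^ 2) ⟨c₀, by simp⟩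
  rw [Finset.mem_filter] at hc
  refine ⟨c, hc.2, fun e he heU hle => ?_⟩
  have hne := hE e he
  set D : Fin k → ℤ := fun i => bal (E.filter (fun f => c f = i)) e.1 -
    bal (E.filter (fun f => c f = i)) e.2 with hD
  -- comparison with the other colours
  have key : ∀ j, j ≠ c e → 2 ≤ D (c e) - D j := by
    intro j hj
    have h0 := hmax (Function.update c e j) (by
      rw [Finset.mem_filter]
      refine ⟨Finset.mem_univ _, fun f hf => ?_⟩
      have hfe : f ≠ e := fun h => heU (h ▸ hf)
      rw [Function.update_of_ne hfe]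
      exact hc.2 f hf)
    set g : Fin k → ℤ := fun i => ∑ v, (bal (E.filter (fun f => c f = i)) v) ^ 2 with hg
    set g' : Fin k → ℤ := fun i =>
      ∑ v, (bal (E.filter (fun f => Function.update c e j f = i)) v) ^ 2 with hg'
    have h1 : ∑ i, g' i ≤ ∑ i, g i := h0
    have hj' : j ∈ (Finset.univ : Finset (Fin k)).erase (c e) := by simp [hj]
    rw [← Finset.add_sum_erase _ g' (Finset.mem_univ (c e)),
      ← Finset.add_sum_erase _ g (Finset.mem_univ (c e)),
      ← Finset.add_sum_erase _ g' hj', ← Finset.add_sum_erase _ g hj'] at h1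
    have h2 : ∑ x ∈ (Finset.univ.erase (c e)).erase j, g' x =
        ∑ x ∈ (Finset.univ.erase (c e)).erase j, g x := by
      refine Finset.sum_congr rfl fun m hm => ?_
      simp only [Finset.mem_erase, Finset.mem_univ, and_true] at hm
      simp only [hg, hg']
      rw [class_update_other E c e j m hm.1 hm.2]
    rw [h2] at h1
    -- the class of `j` grows
    have hA : e ∉ E.filter (fun f => c f = j) := by
      rw [mem_filter]
      exact fun h => hj h.2.symm
    have h3 : g' j = g j + 2 * (D j + 1) := by
      simp only [hg, hg', hD]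
      rw [class_update_same E c e he j]
      exact sum_sq_insert hA hne
    -- the class of `c e` shrinks
    have hB : e ∉ (E.filter (fun f => c f = c e)).erase e := by simp
    have hBi : insert e ((E.filter (fun f => c f = c e)).erase e) =
        E.filter (fun f => c f = c e) := Finset.insert_erase (by simp [he])
    have h4 : g (c e) = g' (c e) + 2 * (D (c e) - 1) := by
      simp only [hg, hg', hD]
      rw [class_update_old E c e j hj.symm]
      have h5 := sum_sq_insert hB hne
      have h6 := bal_insert hB e.1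
      have h7 := bal_insert hB e.2
      rw [hBi] at h5 h6 h7
      simp only [if_true, hne, hne.symm, if_false] at h6 h7
      rw [h5]
      linarith
    linarith
  -- the sum
  have hk : 0 < k := (Nat.zero_le _).trans_lt (c e).2
  have hsum : ∑ i, D i = bal E e.1 - bal E e.2 := by
    simp only [hD]
    rw [Finset.sum_sub_distrib, bal_classes, bal_classes]
  have h5 : (k : ℤ) * D (c e) - ∑ i, D i ≥ 2 * ((k : ℤ) - 1) := by
    have h6 : ∑ i, (D (c e) - D i) = (k : ℤ) * D (c e) - ∑ i, D i := by
      rw [Finset.sum_sub_distrib, Finset.sum_const, Finset.card_univ, Fintype.card_fin,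
        nsmul_eq_mul]
    rw [← h6, ← Finset.add_sum_erase _ _ (Finset.mem_univ (c e)), sub_self, zero_add]
    have h7 : ∑ i ∈ Finset.univ.erase (c e), (2 : ℤ) ≤
        ∑ i ∈ Finset.univ.erase (c e), (D (c e) - D i) :=
      Finset.sum_le_sum fun i hi => key i (by simpa using hi)
    rw [Finset.sum_const, Finset.card_erase_of_mem (Finset.mem_univ _), Finset.card_univ,
      Fintype.card_fin, nsmul_eq_mul, Nat.cast_sub hk] at h7
    push_cast at h7
    linarith
  rw [hsum] at h5
  have h8 : 0 < (k : ℤ) * D (c e) := by linarith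
  have h9 : 0 < D (c e) := by
    by_contra hcon
    push Not at hcon
    have : (k : ℤ) * D (c e) ≤ 0 := mul_nonpos_of_nonneg_of_nonpos (by positivity) hcon
    linarith
  simp only [hD] at h9
  linarith

/-- `k` colours suffice if no arc ascends by more than `2 * k - 3`. -/
theorem sli_of_flat [Fintype V] (E : Finset (V × V)) (hE : ∀ e ∈ E, e.1 ≠ e.2) (k : ℕ)
    (hk : 0 < k) (h : ∀ e ∈ E, bal E e.2 - bal E e.1 ≤ 2 * (k : ℤ) - 3) :
    ∃ c : V × V → Fin k, ∀ i, SLI (E.filter (fun e => c e = i)) := by
  obtain ⟨c, -, hc⟩ := exists_flat E hE k ∅ (fun _ => ⟨0, hk⟩)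
  refine ⟨c, fun i e he => ?_⟩
  rw [mem_filter] at he
  obtain ⟨he, rfl⟩ := he
  exact (hc e he (by simp) (h e he)).ne'

/-- A set `F` of flat arcs, such that all other arcs are steep with respect to `F`. -/
theorem exists_flat_steep [Fintype V] (E : Finset (V × V)) (hE : ∀ e ∈ E, e.1 ≠ e.2) (k : ℤ) :
    ∃ F ⊆ E, (∀ e ∈ F, bal F e.2 - bal F e.1 ≤ 2 * k - 3) ∧
      (∀ e ∈ E, e ∉ F → 2 * k ≤ bal F e.2 - bal F e.1) := by
  obtain ⟨R, hR, hmax⟩ := Finset.exists_max_image E.powerset
    (fun R => ∑ v, (bal R v) ^ 2 + (4 * k - 3) * (R.card : ℤ)) ⟨∅, by simp⟩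
  rw [Finset.mem_powerset] at hR
  refine ⟨R, hR, ?_, ?_⟩
  · intro e he
    have hne := hE e (hR he)
    have hA : e ∉ R.erase e := by simp
    have h1 := hmax (R.erase e) (by
      rw [Finset.mem_powerset]
      exact (Finset.erase_subset _ _).trans hR)
    have h2 := sum_sq_insert hA hne
    have h3 := bal_insert hA e.1
    have h4 := bal_insert hA e.2
    have h5 := Finset.card_insert_of_notMem hA
    rw [Finset.insert_erase he] at h2 h3 h4 h5
    simp only [if_true, hne, hne.symm, if_false] at h3 h4
    have h6 : (R.card : ℤ) = ((R.erase e).card : ℤ) + 1 := by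
      rw [h5]
      push_cast
      ring
    rw [h6] at h1
    have h7 : (4 * k - 3) * (((R.erase e).card : ℤ) + 1) =
        (4 * k - 3) * ((R.erase e).card : ℤ) + (4 * k - 3) := by ring
    rw [h7] at h1
    omega
  · intro e he heR
    have hne := hE e he
    have h1 := hmax (insert e R) (by
      rw [Finset.mem_powerset]
      exact Finset.insert_subset he hR)
    have h2 := sum_sq_insert heR hne
    have h5 := Finset.card_insert_of_notMem heR
    have h6 : ((insert e R).card : ℤ) = (R.card : ℤ) + 1 := by
      rw [h5]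
      push_cast
      ring
    rw [h6, h2] at h1
    have h7 : (4 * k - 3) * ((R.card : ℤ) + 1) =
        (4 * k - 3) * (R.card : ℤ) + (4 * k - 3) := by ring
    rw [h7] at h1
    omega

theorem exists_bit {n m : ℕ} (h : n < m) : ∃ i, n.testBit i = false ∧ m.testBit i = true := by
  by_contra hcon
  push Not at hcon
  have h1 : m ||| n = n := by
    apply Nat.eq_of_testBit_eq
    intro i
    rw [Nat.testBit_or]
    cases h2 : n.testBit i with
    | true => simp
    | false =>
      have := hcon i h2
      simp [this]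
  have h2 : m ≤ m ||| n := Nat.left_le_or
  omega

theorem indeg_mono {A B : Finset (V × V)} (h : A ⊆ B) (v : V) : indeg A v ≤ indeg B v :=
  Finset.card_le_card (Finset.filter_subset_filter _ h)

theorem outdeg_mono {A B : Finset (V × V)} (h : A ⊆ B) (v : V) : outdeg A v ≤ outdeg B v :=
  Finset.card_le_card (Finset.filter_subset_filter _ h)

/-- Digraphs with bounded degrees. -/
theorem sli_of_degrees [Fintype V] (E : Finset (V × V)) (hE : ∀ e ∈ E, e.1 ≠ e.2)
    (k m a b : ℕ) (hk : 0 < k) (ha : ∀ e ∈ E, indeg E e.1 ≤ a) (hb : ∀ e ∈ E, outdeg E e.2 ≤ b)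
    (hab : a + b < 2 * k * 2 ^ m) :
    ∃ c : V × V → Fin (k + m), ∀ i, SLI (E.filter (fun e => c e = i)) := by
  classical
  obtain ⟨F, hFE, hF, hU⟩ := exists_flat_steep E hE (k : ℤ)
  obtain ⟨c₁, hc₁⟩ := sli_of_flat F (fun e he => hE e (hFE he)) k hk hF
  set s : ℕ := 2 * k with hs
  have hs0 : 0 < s := by omega
  have hsz : (s : ℤ) = 2 * (k : ℤ) := by omega
  let lev : V → ℕ := fun v => ((bal F v + a) / (s : ℤ)).toNat
  -- bounds on the ends of the steep arcs
  have hlow : ∀ e ∈ E, e ∉ F → 0 ≤ bal F e.1 + a := by
    intro e he _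
    have h1 := ha e he
    have h2 := indeg_mono hFE e.1
    unfold bal
    omega
  have hupp : ∀ e ∈ E, e ∉ F → bal F e.2 ≤ b := by
    intro e he _
    have h1 := hb e he
    have h2 := outdeg_mono hFE e.2
    unfold bal
    omega
  have hlt : ∀ e ∈ E, e ∉ F → lev e.1 < lev e.2 := by
    intro e he heF
    have h1 := hU e he heF
    have h2 := hlow e he heF
    have h3 : (bal F e.1 + a) / (s : ℤ) + 1 ≤ (bal F e.2 + a) / (s : ℤ) := by
      rw [← Int.add_mul_ediv_right _ 1 (by omega)]
      exact Int.ediv_le_ediv (by omega) (by linarith)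
    have h4 : 0 ≤ (bal F e.1 + a) / (s : ℤ) := Int.ediv_nonneg h2 (by omega)
    simp only [lev]
    omega
  have hbd : ∀ e ∈ E, e ∉ F → lev e.2 < 2 ^ m := by
    intro e he heF
    have h1 := hupp e he heF
    have h2 : (bal F e.2 + a) / (s : ℤ) < ((2 ^ m : ℕ) : ℤ) := by
      apply Int.ediv_lt_of_lt_mul (by omega)
      have h3 : ((a + b : ℕ) : ℤ) < ((s * 2 ^ m : ℕ) : ℤ) := by exact_mod_cast hab
      push_cast at h3 ⊢
      linarith
    simp only [lev]
    have h4 : 0 < 2 ^ m := by positivity
    omega
  have hex : ∀ e : V × V, e ∈ E → e ∉ F → ∃ i : Fin m, (lev e.1).testBit i = false ∧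
      (lev e.2).testBit i = true := by
    intro e he heF
    obtain ⟨i, h1, h2⟩ := exists_bit (hlt e he heF)
    have h3 : i < m := by
      by_contra hcon
      push Not at hcon
      have h4 : lev e.2 < 2 ^ i := (hbd e he heF).trans_le (Nat.pow_le_pow_right (by norm_num) hcon)
      rw [Nat.testBit_lt_two_pow h4] at h2
      exact absurd h2 (by simp)
    exact ⟨⟨i, h3⟩, h1, h2⟩
  refine ⟨fun e => if h : e ∈ E ∧ e ∉ F then Fin.natAdd k (Classical.choose (hex e h.1 h.2))
    else Fin.castAdd m (c₁ e), ?_⟩
  intro i
  refine Fin.addCases (fun i => ?_) (fun i => ?_) i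
  · convert hc₁ i using 1
    ext e
    rw [mem_filter, mem_filter]
    constructor
    · rintro ⟨he, h⟩
      dsimp only at h
      by_cases heF : e ∈ F
      · refine ⟨heF, ?_⟩
        rw [dif_neg (fun h => h.2 heF)] at h
        exact Fin.castAdd_injective _ _ h
      · rw [dif_pos ⟨he, heF⟩] at h
        have h5 := congrArg Fin.val h
        simp only [Fin.val_natAdd, Fin.val_castAdd] at h5
        have := i.2
        omega
    · rintro ⟨heF, h⟩
      refine ⟨hFE heF, ?_⟩
      dsimp only
      rw [dif_neg (fun h => h.2 heF), h]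
  · apply sli_of_cut _ (fun v => (lev v).testBit i = false)
    intro e he
    rw [mem_filter] at he
    obtain ⟨heE, h⟩ := he
    dsimp only at h
    by_cases heF : e ∈ F
    · rw [dif_neg (fun h => h.2 heF)] at h
      have h5 := congrArg Fin.val h
      simp only [Fin.val_natAdd, Fin.val_castAdd] at h5
      have := (c₁ e).2
      omega
    · rw [dif_pos ⟨heE, heF⟩] at h
      have h6 := Classical.choose_spec (hex e heE heF)
      have h7 : Classical.choose (hex e heE heF) = i := by
        have h5 := congrArg Fin.val h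
        simp only [Fin.val_natAdd] at h5
        exact Fin.ext (by omega)
      rw [h7] at h6
      exact ⟨h6.1, by rw [h6.2]; simp⟩

end Pool.Agent.Slir
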