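import Mathlib

/-!
Strong locally irregular arc sets: definitions and the basic tools.
-/

namespace Pool.Agent.Slir

open Finset

variable {V : Type*} [DecidableEq V]

/-- The outdegree of `v` in the arc set `A`; an arc from `x` to `y` is the pair `(x, y)`. -/
def outdeg (A : Finset (V × V)) (v : V) : ℕ := (A.filter (fun e => e.1 = v)).card

/-- The indegree of `v` in the arc set `A`. -/
def indeg (A : Finset (V × V)) (v : V) : ℕ := (A.filter (fun e => e.2 = v)).card

/-- The balanced degree of `v` in the arc set `A`. -/
def bal (A : Finset (V × V)) (v : V) : ℤ := (outdeg A v : ℤ) - (indeg A v : ℤ)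

/-- The arc set `A` is strong locally irregular: the two ends of every arc of `A` have different
balanced degrees in `A`. -/
def SLI (A : Finset (V × V)) : Prop := ∀ e ∈ A, bal A e.1 ≠ bal A e.2

theorem outdeg_insert {A : Finset (V × V)} {e : V × V} (he : e ∉ A) (v : V) :
    outdeg (insert e A) v = outdeg A v + (if e.1 = v then 1 else 0) := by
  unfold outdeg
  rw [filter_insert]
  split_ifs with h
  · rw [card_insert_of_notMem]
    simp [he]
  · simp

theorem indeg_insert {A : Finset (V × V)} {e : V × V} (he : e ∉ A) (v : V) :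
    indeg (insert e A) v = indeg A v + (if e.2 = v then 1 else 0) := by
  unfold indeg
  rw [filter_insert]
  split_ifs with h
  · rw [card_insert_of_notMem]
    simp [he]
  · simp

theorem bal_insert {A : Finset (V × V)} {e : V × V} (he : e ∉ A) (v : V) :
    bal (insert e A) v = bal A v + (if e.1 = v then 1 else 0) - (if e.2 = v then 1 else 0) := by
  unfold bal
  rw [outdeg_insert he, indeg_insert he]
  push_cast
  split_ifs <;> ring

theorem sum_sq_insert [Fintype V] {A : Finset (V × V)} {e : V × V} (he : e ∉ A)
    (hne : e.1 ≠ e.2) :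
    ∑ v, (bal (insert e A) v) ^ 2 = ∑ v, (bal A v) ^ 2 + 2 * (bal A e.1 - bal A e.2 + 1) := by
  have h1 : ∀ v : V, (bal (insert e A) v) ^ 2 = (bal A v) ^ 2
      + ((if e.1 = v then 2 * bal A v + 1 else 0) + (if e.2 = v then 1 - 2 * bal A v else 0)) := by
    intro v
    rw [bal_insert he]
    by_cases h1 : e.1 = v
    · have h2 : ¬ e.2 = v := fun h => hne (h1.trans h.symm)
      simp only [h1, h2, if_true, if_false]
      ring
    · by_cases h2 : e.2 = v
      · simp only [h1, h2, if_true, if_false]
        ring
      · simp only [h1, h2, if_false]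
        ring
  rw [Finset.sum_congr rfl (fun v _ => h1 v), Finset.sum_add_distrib, Finset.sum_add_distrib]
  simp only [Finset.sum_ite_eq, Finset.mem_univ, if_true]
  ring

/-- One colour makes the rest acyclic: a set `R` of arcs such that balanced degrees in `R` go down
along the arcs of `R` and up along the other arcs. -/
theorem exists_down_up [Fintype V] (E : Finset (V × V)) (hE : ∀ e ∈ E, e.1 ≠ e.2) :
    ∃ R ⊆ E, (∀ e ∈ R, bal R e.2 < bal R e.1) ∧ (∀ e ∈ E, e ∉ R → bal R e.1 < bal R e.2) := by
  obtain ⟨R, hR, hmax⟩ := Finset.exists_max_image E.powerset (fun R => ∑ v, (bal R v) ^ 2)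
    ⟨∅, by simp⟩
  rw [Finset.mem_powerset] at hR
  refine ⟨R, hR, ?_, ?_⟩
  · intro e he
    have hne := hE e (hR he)
    have hA : e ∉ R.erase e := by simp
    have h1 := hmax (R.erase e) (by
      rw [Finset.mem_powerset]
      exact (Finset.erase_subset _ _).trans hR)
    have h2 := sum_sq_insert hA hne
    have h3 := bal_insert hA e.1
    have h4 := bal_insert hA e.2
    rw [Finset.insert_erase he] at h2 h3 h4
    simp only [if_true, hne, hne.symm, if_false] at h3 h4
    linarith
  · intro e he heR
    have hne := hE e he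
    have h1 := hmax (insert e R) (by
      rw [Finset.mem_powerset]
      exact Finset.insert_subset he hR)
    have h2 := sum_sq_insert heR hne
    linarith

/-- A directed cut is strong locally irregular. -/
theorem sli_of_cut (C : Finset (V × V)) (Q : V → Prop) (h : ∀ e ∈ C, Q e.1 ∧ ¬ Q e.2) :
    SLI C := by
  intro e he
  have h1 : 0 < outdeg C e.1 := Finset.card_pos.2 ⟨e, by simp [he]⟩
  have h2 : indeg C e.1 = 0 := by
    unfold indeg
    rw [Finset.card_eq_zero, Finset.filter_eq_empty_iff]
    intro f hf hfe
    exact (h f hf).2 (hfe ▸ (h e he).1)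
  have h3 : 0 < indeg C e.2 := Finset.card_pos.2 ⟨e, by simp [he]⟩
  have h4 : outdeg C e.2 = 0 := by
    unfold outdeg
    rw [Finset.card_eq_zero, Finset.filter_eq_empty_iff]
    intro f hf hfe
    exact (h e he).2 (hfe ▸ (h f hf).1)
  unfold bal
  rw [h2, h4]
  push_cast
  omega

/-- Greedy choice along a rank function. -/
theorem rec_choice [Finite V] (r : V → ℤ) {α : Type*} [Inhabited α]
    (P : V → (V → α) → α → Prop) (hP : ∀ x g, ∃ a, P x g a)
    (hloc : ∀ x g g' a, (∀ z, r z < r x → g z = g' z) → P x g a → P x g' a) :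
    ∃ f : V → α, ∀ x, P x f (f x) := by
  classical
  have hwf : WellFounded (fun z x : V => r z < r x) := by
    haveI : IsTrans V (fun z x : V => r z < r x) := ⟨fun _ _ _ h1 h2 => lt_trans h1 h2⟩
    haveI : Std.Irrefl (fun z x : V => r z < r x) := ⟨fun _ h => lt_irrefl _ h⟩
    exact Finite.wellFounded_of_trans_of_irrefl _
  let F : (x : V) → ((z : V) → r z < r x → α) → α := fun x ih =>
    Classical.choose (hP x (fun z => if h : r z < r x then ih z h else default))
  let f : V → α := hwf.fix F
  refine ⟨f, fun x => ?_⟩
  have h1 : f x = F x (fun z _ => f z) := hwf.fix_eq F x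
  have h2 := Classical.choose_spec (hP x (fun z => if h : r z < r x then f z else default))
  rw [h1]
  refine hloc x _ f _ ?_ h2
  intro z hz
  simp [hz]

end Pool.Agent.Slir
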