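import Mathlib
import Pool.Agent.Slir.Basic

/-!
Potential for strong locally irregular colourings with `c + 1` colours, and extension of partial
colourings.
-/

namespace Pool.Agent.Slir.Ext

open Finset

variable {V : Type*} [DecidableEq V]

/-- The class of colour `i`. -/
def cls {c : ℕ} (E : Finset (V × V)) (f : V × V → Fin (c + 1)) (i : Fin (c + 1)) :
    Finset (V × V) := E.filter (fun e => f e = i)

theorem bal_eq_sum {c : ℕ} (E : Finset (V × V)) (f : V × V → Fin (c + 1)) (v : V) :
    bal E v = ∑ i, bal (cls E f i) v := by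
  have h1 : ∀ P : V × V → Prop, ∀ [DecidablePred P], ((E.filter P).card : ℤ)
      = ∑ i, (((cls E f i).filter P).card : ℤ) := by
    intro P _
    rw [← Nat.cast_sum, Finset.card_eq_sum_card_fiberwise (f := f) (t := Finset.univ)
      (fun _ _ => by simp)]
    congr 1
    refine Finset.sum_congr rfl fun i _ => ?_
    congr 1
    ext e
    simp only [cls, Finset.mem_filter]
    tauto
  unfold bal outdeg indeg
  rw [h1, h1, ← Finset.sum_sub_distrib]

/-- The potential when the colour of one arc is changed. -/
theorem potential_update [Fintype V] {c : ℕ} (E : Finset (V × V)) (f : V × V → Fin (c + 1))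
    {e : V × V} (he : e ∈ E) (hne : e.1 ≠ e.2) {j : Fin (c + 1)} (hj : j ≠ f e) :
    ∑ i, ∑ v, (bal (cls E (Function.update f e j) i) v) ^ 2
      = ∑ i, ∑ v, (bal (cls E f i) v) ^ 2
        + 2 * ((bal (cls E f j) e.1 - bal (cls E f j) e.2 + 1)
          - (bal (cls E f (f e)) e.1 - bal (cls E f (f e)) e.2 - 1)) := by
  set g : V × V → Fin (c + 1) := Function.update f e j with hg
  have hgi : cls E g (f e) = (cls E f (f e)).erase e := by
    ext x
    simp only [cls, Finset.mem_filter, Finset.mem_erase, hg]
    by_cases hx : x = e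
    · subst hx
      simp [hj]
    · simp [hx]
  have hgj : cls E g j = insert e (cls E f j) := by
    ext x
    simp only [cls, Finset.mem_filter, Finset.mem_insert, hg]
    by_cases hx : x = e
    · subst hx
      simp [he]
    · simp [hx]
  have hgk : ∀ k, k ≠ f e → k ≠ j → cls E g k = cls E f k := by
    intro k hk hkj
    ext x
    simp only [cls, Finset.mem_filter, hg]
    by_cases hx : x = e
    · subst hx
      simp [hk.symm, hkj.symm]
    · simp [Function.update_of_ne hx]
  have hsplit : ∀ u : V × V → Fin (c + 1), ∑ i, ∑ v, (bal (cls E u i) v) ^ 2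
      = ∑ v, (bal (cls E u (f e)) v) ^ 2 + (∑ v, (bal (cls E u j) v) ^ 2
        + ∑ i ∈ (Finset.univ.erase (f e)).erase j, ∑ v, (bal (cls E u i) v) ^ 2) := by
    intro u
    rw [← Finset.add_sum_erase _ _ (Finset.mem_univ (f e)),
      ← Finset.add_sum_erase _ _ (show j ∈ Finset.univ.erase (f e) by simp [hj])]
  rw [hsplit f, hsplit g]
  have hrest : ∑ i ∈ (Finset.univ.erase (f e)).erase j, ∑ v, (bal (cls E g i) v) ^ 2
      = ∑ i ∈ (Finset.univ.erase (f e)).erase j, ∑ v, (bal (cls E f i) v) ^ 2 := by
    refine Finset.sum_congr rfl fun i hi => ?_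
    simp only [Finset.mem_erase, Finset.mem_univ, and_true] at hi
    rw [hgk i hi.2 hi.1]
  rw [hrest, hgi, hgj]
  have hej : e ∉ cls E f j := by
    simp [cls, hj.symm]
  have hei : e ∈ cls E f (f e) := by
    simp [cls, he]
  have h1 := sum_sq_insert hej hne
  have hA : e ∉ (cls E f (f e)).erase e := by simp
  have h2 := sum_sq_insert hA hne
  have h3 := bal_insert hA e.1
  have h4 := bal_insert hA e.2
  rw [Finset.insert_erase hei] at h2 h3 h4
  simp only [if_true, hne, hne.symm, if_false] at h3 h4
  rw [h1, h3, h4]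
  linarith

theorem outdeg_mono {A B : Finset (V × V)} (h : A ⊆ B) (v : V) : outdeg A v ≤ outdeg B v :=
  Finset.card_le_card (Finset.filter_subset_filter _ h)

theorem indeg_mono {A B : Finset (V × V)} (h : A ⊆ B) (v : V) : indeg A v ≤ indeg B v :=
  Finset.card_le_card (Finset.filter_subset_filter _ h)

theorem bal_union {A B : Finset (V × V)} (h : Disjoint A B) (v : V) :
    bal (A ∪ B) v = bal A v + bal B v := by
  have h1 : ∀ P : V × V → Prop, ∀ [DecidablePred P], (((A ∪ B).filter P).card : ℤ)
      = ((A.filter P).card : ℤ) + ((B.filter P).card : ℤ) := by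
    intro P _
    rw [← Nat.cast_add, ← Finset.card_union_of_disjoint, ← Finset.filter_union]
    exact Finset.disjoint_filter_filter h
  unfold bal outdeg indeg
  rw [h1 (fun e => e.1 = v), h1 (fun e => e.2 = v)]
  ring

/-- Extension of a robust partial colouring: the arcs outside `W` rise by at most `2 c - 1`
(with `c + 1` colours), and along the arcs of a colour class of `W` the balanced degree changes by
more than the uncoloured arcs can undo. -/
theorem extend_colouring [Fintype V] (E W : Finset (V × V)) (hE : ∀ e ∈ E, e.1 ≠ e.2)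
    (hWE : W ⊆ E) {c : ℕ} (g : V × V → Fin (c + 1))
    (hU : ∀ e ∈ E \ W, bal E e.2 < bal E e.1 + 2 * c)
    (hW : ∀ e ∈ W,
      ((indeg (E \ W) e.1 : ℤ) + outdeg (E \ W) e.2 <
        bal (W.filter (fun a => g a = g e)) e.1 - bal (W.filter (fun a => g a = g e)) e.2) ∨
      ((outdeg (E \ W) e.1 : ℤ) + indeg (E \ W) e.2 <
        bal (W.filter (fun a => g a = g e)) e.2 - bal (W.filter (fun a => g a = g e)) e.1)) :
    ∃ f : V × V → Fin (c + 1), (∀ e ∈ W, f e = g e) ∧
      (∀ i, SLI (E.filter (fun e => f e = i))) ∧
      ∀ e ∈ E \ W, bal (E.filter (fun a => f a = f e)) e.2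
        < bal (E.filter (fun a => f a = f e)) e.1 := by
  obtain ⟨f, hf, hmax⟩ := Finset.exists_max_image
    ((Finset.univ : Finset (V × V → Fin (c + 1))).filter (fun f => ∀ e ∈ W, f e = g e))
    (fun f => ∑ i, ∑ v, (bal (cls E f i) v) ^ 2) ⟨g, by simp⟩
  simp only [Finset.mem_filter, Finset.mem_univ, true_and] at hf hmax
  have down : ∀ e ∈ E \ W, bal (cls E f (f e)) e.2 < bal (cls E f (f e)) e.1 := by
    intro e he
    obtain ⟨heE, hk⟩ := Finset.mem_sdiff.1 he
    by_contra hcon
    push Not at hcon
    have key : ∀ j, j ≠ f e → bal (cls E f j) e.1 + 2 ≤ bal (cls E f j) e.2 := by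
      intro j hj
      have h1 := hmax (Function.update f e j) (fun x hx => by
        have hxe : x ≠ e := by
          rintro rfl
          exact hk hx
        rw [Function.update_of_ne hxe]
        exact hf x hx)
      rw [potential_update E f heE (hE e heE) hj] at h1
      linarith
    have h2 := hU e he
    rw [bal_eq_sum E f e.1, bal_eq_sum E f e.2,
      ← Finset.add_sum_erase _ _ (Finset.mem_univ (f e)),
      ← Finset.add_sum_erase _ (fun i => bal (cls E f i) e.1) (Finset.mem_univ (f e))] at h2
    have h3 : ∑ j ∈ Finset.univ.erase (f e), (bal (cls E f j) e.1 + 2)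
        ≤ ∑ j ∈ Finset.univ.erase (f e), bal (cls E f j) e.2 :=
      Finset.sum_le_sum fun j hj => key j (Finset.ne_of_mem_erase hj)
    rw [Finset.sum_add_distrib] at h3
    simp only [Finset.sum_const, Finset.card_erase_of_mem (Finset.mem_univ (f e)),
      Finset.card_univ, Fintype.card_fin, nsmul_eq_mul, Nat.add_sub_cancel] at h3
    linarith
  refine ⟨f, hf, ?_, down⟩
  intro i e he hbad
  change bal (cls E f i) e.1 = bal (cls E f i) e.2 at hbad
  obtain ⟨heE, hfe⟩ := Finset.mem_filter.1 he
  by_cases hk : e ∈ W
  · have hge : g e = i := by rw [← hf e hk]; exact hfe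
    have h1 := hW e hk
    rw [hge] at h1
    have hsplit : cls E f i = W.filter (fun a => g a = i) ∪ (E \ W).filter (fun a => f a = i) := by
      ext x
      simp only [cls, Finset.mem_filter, Finset.mem_union, Finset.mem_sdiff]
      by_cases hx : x ∈ W
      · simp [hx, hWE hx, hf x hx]
      · simp [hx]
    have hdisj : Disjoint (W.filter (fun a => g a = i)) ((E \ W).filter (fun a => f a = i)) := by
      rw [Finset.disjoint_left]
      intro x hx hx'
      simp only [Finset.mem_filter, Finset.mem_sdiff] at hx hx'
      exact hx'.1.2 hx.1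
    have h2 := outdeg_mono (Finset.filter_subset (fun a => f a = i) (E \ W)) e.1
    have h3 := outdeg_mono (Finset.filter_subset (fun a => f a = i) (E \ W)) e.2
    have h4 := indeg_mono (Finset.filter_subset (fun a => f a = i) (E \ W)) e.1
    have h5 := indeg_mono (Finset.filter_subset (fun a => f a = i) (E \ W)) e.2
    rw [hsplit, bal_union hdisj, bal_union hdisj] at hbad
    have h6 : bal ((E \ W).filter (fun a => f a = i)) e.1
        = outdeg ((E \ W).filter (fun a => f a = i)) e.1
          - indeg ((E \ W).filter (fun a => f a = i)) e.1 := rfl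
    have h7 : bal ((E \ W).filter (fun a => f a = i)) e.2
        = outdeg ((E \ W).filter (fun a => f a = i)) e.2
          - indeg ((E \ W).filter (fun a => f a = i)) e.2 := rfl
    rcases h1 with h1 | h1 <;> omega
  · have h1 := down e (Finset.mem_sdiff.2 ⟨heE, hk⟩)
    rw [hfe] at h1
    exact h1.ne hbad.symm

end Pool.Agent.Slir.Ext
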