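import Pool.Agent.Slir.Side

/-!
Eight colours suffice for every digraph; `l` colours suffice if the skeleton has a proper colouring
with at most `l.choose (l / 2)` colours.
-/

namespace Pool.Agent.Slir

open Finset

variable {V : Type*} [DecidableEq V]

/-- Arcs between the classes of a vertex partition, covered by directed cuts. -/
theorem cut_colouring (l : ℕ) (E : Finset (V × V)) {α : Type*} (κ : V → α)
    (S : α → Finset (Fin l)) (hS : ∀ i j, i ≠ j → ∃ m, m ∈ S i ∧ m ∉ S j)
    (hl : 0 < l) (hκ : ∀ e ∈ E, κ e.1 ≠ κ e.2) :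
    ∃ c : V × V → Fin l, ∀ i, SLI (E.filter (fun e => c e = i)) := by
  classical
  refine ⟨fun e => if h : κ e.1 ≠ κ e.2 then Classical.choose (hS _ _ h) else ⟨0, hl⟩, ?_⟩
  intro i
  apply sli_of_cut _ (fun v => i ∈ S (κ v))
  intro e he
  rw [mem_filter] at he
  obtain ⟨heE, hei⟩ := he
  have h := hκ e heE
  dsimp only at hei
  rw [dif_pos h] at hei
  have := Classical.choose_spec (hS _ _ h)
  rw [hei] at this
  exact this

theorem few_colours (l : ℕ) (hl : 0 < l) (E : Finset (V × V))
    (h : ∃ κ : V → Fin (l.choose (l / 2)), ∀ e ∈ E, κ e.1 ≠ κ e.2) :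
    ∃ c : V × V → Fin l, ∀ i, SLI (E.filter (fun e => c e = i)) := by
  obtain ⟨κ, hκ⟩ := h
  have hcard : (Finset.powersetCard (l / 2) (Finset.univ : Finset (Fin l))).card
      = l.choose (l / 2) := by
    rw [Finset.card_powersetCard]
    simp
  let φ := Finset.equivFinOfCardEq hcard
  refine cut_colouring l E κ (fun i => (φ.symm i).1) ?_ hl hκ
  intro i j hij
  by_contra hcon
  push Not at hcon
  have h1 : (φ.symm i).1 ⊆ (φ.symm j).1 := fun m hm => hcon m hm
  have h2 := (Finset.mem_powersetCard.1 (φ.symm i).2).2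
  have h3 := (Finset.mem_powersetCard.1 (φ.symm j).2).2
  have h4 : (φ.symm i).1 = (φ.symm j).1 := Finset.eq_of_subset_of_card_le h1 (by omega)
  exact hij (φ.symm.injective (Subtype.ext h4))

/-- Eight pairwise incomparable subsets of a set of five elements. -/
def pairs : Fin 8 → Finset (Fin 5) :=
  ![{0, 1}, {0, 2}, {0, 3}, {0, 4}, {1, 2}, {1, 3}, {1, 4}, {2, 3}]

theorem pairs_incomparable : ∀ i j : Fin 8, i ≠ j → ∃ m, m ∈ pairs i ∧ m ∉ pairs j := by
  decide

theorem eight_colours [Fintype V] (E : Finset (V × V)) (hE : ∀ e ∈ E, e.1 ≠ e.2) :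
    ∃ c : V × V → Fin 8, ∀ i, SLI (E.filter (fun e => c e = i)) := by
  classical
  -- the first colour
  obtain ⟨R, hRE, hR, hup⟩ := exists_down_up E hE
  have hRsli : SLI R := fun e he h => by
    have := hR e he
    omega
  set L := E.filter (fun e => e ∉ R) with hL
  have hLmem : ∀ e, e ∈ L ↔ e ∈ E ∧ e ∉ R := fun e => Finset.mem_filter
  have hr : ∀ e ∈ L, bal R e.1 < bal R e.2 := fun e he =>
    hup e ((hLmem e).1 he).1 ((hLmem e).1 he).2
  have hLne : ∀ e ∈ L, e.1 ≠ e.2 := fun e he => hE e ((hLmem e).1 he).1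
  -- the cut
  obtain ⟨O, hO, hI⟩ := exists_cut L hLne
  obtain ⟨M₁, M₂, hM₁, hM₂, hdisj, hs₁, hs₂⟩ := exists_share
    (L.filter (fun e => e.1 ∈ O ∧ e.2 ∉ O)) O (fun e he => (Finset.mem_filter.1 he).2)
  obtain ⟨c₁, A, hA₁, hA₂, hA₃⟩ := exists_side L _ hr O M₁
    (fun e he => (Finset.mem_filter.1 (hM₁ he)).2) (by
      intro x hx
      refine (hO x hx).trans (le_trans (le_of_eq ?_) (hs₁ x hx))
      unfold outdeg
      congr 1
      ext e
      simp only [mem_filter]
      constructor
      · rintro ⟨h1, h2, h3⟩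
        exact ⟨⟨h1, h2 ▸ hx, h3⟩, h2⟩
      · rintro ⟨⟨h1, h2, h3⟩, h4⟩
        exact ⟨h1, h4, h3⟩)
  obtain ⟨c₂, B, hB₁, hB₂, hB₃⟩ := exists_side' L _ hr O M₂
    (fun e he => (Finset.mem_filter.1 (hM₂ he)).2) (by
      intro y hy
      refine (hI y hy).trans (le_trans (le_of_eq ?_) (hs₂ y hy))
      unfold indeg
      congr 1
      ext e
      simp only [mem_filter]
      constructor
      · rintro ⟨h1, h2, h3⟩
        exact ⟨⟨h1, h3, h2 ▸ hy⟩, h2⟩
      · rintro ⟨⟨h1, h2, h3⟩, h4⟩
        exact ⟨h1, h4, h2⟩)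
  have hAL : ∀ e ∈ A, e ∈ L := by
    intro e he
    rcases hA₂ e he with h | h
    · exact h.1
    · exact (Finset.mem_filter.1 (hM₁ h)).1
  have hBL : ∀ e ∈ B, e ∈ L := by
    intro e he
    rcases hB₂ e he with h | h
    · exact h.1
    · exact (Finset.mem_filter.1 (hM₂ h)).1
  have hAB : ∀ e ∈ A, e ∉ B := by
    intro e heA heB
    rcases hA₂ e heA with h | h
    · rcases hB₂ e heB with h' | h'
      · exact h'.2.1 h.2.1
      · exact (Finset.mem_filter.1 (hM₂ h')).2.2 h.2.2
    · rcases hB₂ e heB with h' | h'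
      · exact h'.2.1 (Finset.mem_filter.1 (hM₁ h)).2.1
      · exact Finset.disjoint_left.1 hdisj h h'
  -- the cells
  let κ : V → Fin 8 := fun v =>
    if v ∈ O then Fin.castAdd 4 (c₁ v) else Fin.natAdd 4 (c₂ v)
  have hκ : ∀ e ∈ E, e ∉ R → e ∉ A → e ∉ B → κ e.1 ≠ κ e.2 := by
    intro e he h1 h2 h3 h4
    have heL : e ∈ L := (hLmem e).2 ⟨he, h1⟩
    by_cases hO1 : e.1 ∈ O
    · by_cases hO2 : e.2 ∈ O
      · simp only [κ, hO1, hO2, if_true] at h4
        exact h2 (hA₁ e heL hO1 hO2 (Fin.castAdd_injective _ _ h4))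
      · simp only [κ, hO1, hO2, if_true, if_false] at h4
        have h5 := congrArg Fin.val h4
        simp only [Fin.val_castAdd, Fin.val_natAdd] at h5
        omega
    · by_cases hO2 : e.2 ∈ O
      · simp only [κ, hO1, hO2, if_true, if_false] at h4
        have h5 := congrArg Fin.val h4
        simp only [Fin.val_castAdd, Fin.val_natAdd] at h5
        omega
      · simp only [κ, hO1, hO2, if_false] at h4
        have h5 := congrArg Fin.val h4
        simp only [Fin.val_natAdd] at h5
        exact h3 (hB₁ e heL hO1 hO2 (Fin.ext (by omega)))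
  obtain ⟨g, hg⟩ := cut_colouring 5 (E.filter (fun e => e ∉ R ∧ e ∉ A ∧ e ∉ B)) κ pairs
    pairs_incomparable (by norm_num) (by
      intro e he
      rw [mem_filter] at he
      exact hκ e he.1 he.2.1 he.2.2.1 he.2.2.2)
  refine ⟨fun e => if e ∈ R then 0 else if e ∈ A then 1 else if e ∈ B then 2
    else Fin.natAdd 3 (g e), ?_⟩
  intro i
  have hcut : ∀ j : Fin 5, Fin.natAdd 3 j ≠ (0 : Fin 8) ∧ Fin.natAdd 3 j ≠ (1 : Fin 8) ∧
      Fin.natAdd 3 j ≠ (2 : Fin 8) := by decide
  have hi : i = 0 ∨ i = 1 ∨ i = 2 ∨ ∃ j : Fin 5, i = Fin.natAdd 3 j := by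
    revert i
    decide
  rcases hi with rfl | rfl | rfl | ⟨j, rfl⟩
  · convert hRsli using 1
    ext e
    rw [mem_filter]
    constructor
    · rintro ⟨he, h⟩
      by_contra hcon
      simp only [hcon, if_false] at h
      split_ifs at h
      · exact absurd h (by decide)
      · exact absurd h (by decide)
      · exact (hcut _).1 h
    · intro h
      exact ⟨hRE h, by simp [h]⟩
  · convert hA₃ using 1
    ext e
    rw [mem_filter]
    constructor
    · rintro ⟨he, h⟩
      by_contra hcon
      simp only [hcon, if_false] at h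
      split_ifs at h
      · exact absurd h (by decide)
      · exact absurd h (by decide)
      · exact (hcut _).2.1 h
    · intro h
      have h1 := (hLmem e).1 (hAL e h)
      exact ⟨h1.1, by simp [h, h1.2]⟩
  · convert hB₃ using 1
    ext e
    rw [mem_filter]
    constructor
    · rintro ⟨he, h⟩
      by_contra hcon
      simp only [hcon, if_false] at h
      split_ifs at h
      · exact absurd h (by decide)
      · exact absurd h (by decide)
      · exact (hcut _).2.2 h
    · intro h
      have h1 := (hLmem e).1 (hBL e h)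
      have h2 : e ∉ A := fun h' => hAB e h' h
      exact ⟨h1.1, by simp [h, h1.2, h2]⟩
  · convert hg j using 1
    ext e
    rw [mem_filter, mem_filter, mem_filter]
    constructor
    · rintro ⟨he, h⟩
      dsimp only at h
      split_ifs at h with h1 h2 h3
      · exact absurd h.symm (hcut j).1
      · exact absurd h.symm (hcut j).2.1
      · exact absurd h.symm (hcut j).2.2
      · exact ⟨⟨he, h1, h2, h3⟩, Fin.natAdd_injective _ _ h⟩
    · rintro ⟨⟨he, h1, h2, h3⟩, h⟩
      refine ⟨he, ?_⟩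
      simp [h1, h2, h3, h]

end Pool.Agent.Slir
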