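import Mathlib
import Pool.Agent.Slir.Basic

/-!
Two colours and few bad arcs when the balanced degree rises by at most `K` along every arc.
-/

namespace Pool.Agent.Slir

open Finset

variable {V : Type*} [DecidableEq V]

theorem bal_sdiff {E R : Finset (V × V)} (h : R ⊆ E) (v : V) :
    bal (E \ R) v = bal E v - bal R v := by
  have h1 : ∀ P : V × V → Prop, ∀ [DecidablePred P], ((E.filter P).card : ℤ)
      = (((E \ R).filter P).card : ℤ) + ((R.filter P).card : ℤ) := by
    intro P _
    rw [← Nat.cast_add, ← Finset.card_union_of_disjoint, ← Finset.filter_union,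
      Finset.sdiff_union_of_subset h]
    exact Finset.disjoint_filter_filter Finset.sdiff_disjoint
  unfold bal outdeg indeg
  rw [h1 (fun e => e.1 = v), h1 (fun e => e.2 = v)]
  ring

/-- The arc set `R` with the arcs of `S` switched. -/
def switch (R S : Finset (V × V)) : Finset (V × V) := (R \ S) ∪ (S \ R)

theorem switch_insert_mem {R S : Finset (V × V)} {e : V × V} (heS : e ∉ S) (heR : e ∈ R) :
    switch R (insert e S) = (switch R S).erase e := by
  ext x
  simp only [switch, Finset.mem_union, Finset.mem_sdiff, Finset.mem_insert, Finset.mem_erase]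
  by_cases hx : x = e
  · subst hx
    simp [heR]
  · tauto

theorem switch_insert_not {R S : Finset (V × V)} {e : V × V} (heR : e ∉ R) :
    switch R (insert e S) = insert e (switch R S) := by
  ext x
  simp only [switch, Finset.mem_union, Finset.mem_sdiff, Finset.mem_insert]
  by_cases hx : x = e
  · subst hx
    simp [heR]
  · tauto

theorem sum_sq_shift_insert [Fintype V] (b : V → ℤ) {A : Finset (V × V)} {e : V × V}
    (he : e ∉ A) (hne : e.1 ≠ e.2) :
    ∑ v, (2 * bal (insert e A) v - b v) ^ 2 = ∑ v, (2 * bal A v - b v) ^ 2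
      + 4 * ((2 * bal A e.1 - b e.1) - (2 * bal A e.2 - b e.2) + 2) := by
  have h1 : ∀ v : V, (2 * bal (insert e A) v - b v) ^ 2 = (2 * bal A v - b v) ^ 2
      + ((if e.1 = v then 4 * (2 * bal A v - b v) + 4 else 0)
        + (if e.2 = v then 4 - 4 * (2 * bal A v - b v) else 0)) := by
    intro v
    rw [bal_insert he]
    by_cases h1 : e.1 = v
    · have h2 : ¬ e.2 = v := fun h => hne (h1.trans h.symm)
      simp only [h1, h2, if_true, if_false]
      ring
    · by_cases h2 : e.2 = v
      · simp only [h1, h2, if_true, if_false]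
        ring
      · simp only [h1, h2, if_false]
        ring
  rw [Finset.sum_congr rfl (fun v _ => h1 v), Finset.sum_add_distrib, Finset.sum_add_distrib]
  simp only [Finset.sum_ite_eq, Finset.mem_univ, if_true]
  ring

/-- Switching several arcs at one vertex. -/
theorem switch_many [Fintype V] (b : V → ℤ) (R : Finset (V × V)) (v : V) (S : Finset (V × V)) :
    (∀ e ∈ S, (e ∈ R ∧ e.1 = v ∧ e.2 ≠ v) ∨ (e ∉ R ∧ e.2 = v ∧ e.1 ≠ v)) →
    bal (switch R S) v = bal R v - S.card ∧
    (∀ z, z ≠ v → bal R z ≤ bal (switch R S) z) ∧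
    ∑ z, (2 * bal R z - b z) ^ 2 + 4 * (S.card : ℤ) ^ 2 + 4 * S.card ≤
      ∑ z, (2 * bal (switch R S) z - b z) ^ 2 + ∑ e ∈ S, 4 * ((2 * bal R v - b v)
        - (2 * bal R (if e.1 = v then e.2 else e.1) - b (if e.1 = v then e.2 else e.1))) := by
  induction S using Finset.induction_on with
  | empty =>
    intro _
    have : switch R ∅ = R := by simp [switch]
    simp [this]
  | insert e S heS ih =>
    intro hS
    obtain ⟨i1, i2, i3⟩ := ih (fun x hx => hS x (Finset.mem_insert_of_mem hx))
    rw [Finset.card_insert_of_notMem heS, Finset.sum_insert heS]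
    push_cast
    rcases hS e (Finset.mem_insert_self _ _) with ⟨heR, h1, h2⟩ | ⟨heR, h1, h2⟩
    · rw [switch_insert_mem heS heR]
      have hmem : e ∈ switch R S := by simp [switch, heR, heS]
      have hA : e ∉ (switch R S).erase e := by simp
      have hne : e.1 ≠ e.2 := fun h => h2 (h.symm.trans h1)
      have h3 := fun z => bal_insert hA z
      have h4 := sum_sq_shift_insert b hA hne
      rw [Finset.insert_erase hmem] at h3 h4
      have h5 := h3 v
      have h6 := h3 e.2
      simp only [h1, if_true, h2, h2.symm, if_false] at h5 h6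
      refine ⟨by linarith, ?_, ?_⟩
      · intro z hz
        have h7 := h3 z
        have h8 : ¬ e.1 = z := fun h => hz (h.symm.trans h1)
        have h9 := i2 z hz
        simp only [h8, if_false] at h7
        split_ifs at h7 <;> linarith
      · have h7 := i2 e.2 h2
        simp only [h1, if_true]
        rw [h1] at h4
        nlinarith [h4, h5, h6, h7, i1, i3]
    · rw [switch_insert_not heR]
      have hmem : e ∉ switch R S := by simp [switch, heR, heS]
      have hne : e.1 ≠ e.2 := fun h => h2 (h.trans h1)
      have h3 := fun z => bal_insert hmem z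
      have h4 := sum_sq_shift_insert b hmem hne
      have h5 := h3 v
      simp only [h1, if_true, h2, if_false] at h5
      refine ⟨by linarith, ?_, ?_⟩
      · intro z hz
        have h7 := h3 z
        have h8 : ¬ e.2 = z := fun h => hz (h.symm.trans h1)
        have h9 := i2 z hz
        simp only [h8, if_false] at h7
        split_ifs at h7 <;> linarith
      · have h7 := i2 e.1 h2
        simp only [h2, if_false]
        rw [h1] at h4
        nlinarith [h4, h5, h7, i1, i3]

/-- The bad arcs of the two-colouring `R`, `E \ R`. -/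
def bad (E R : Finset (V × V)) : Finset (V × V) :=
  E.filter (fun e => (e ∈ R ∧ bal R e.1 = bal R e.2) ∨
    (e ∉ R ∧ bal (E \ R) e.1 = bal (E \ R) e.2))

theorem few_bad [Fintype V] (E : Finset (V × V)) (hE : ∀ e ∈ E, e.1 ≠ e.2) (K : ℕ) (hK : 1 ≤ K)
    (hrise : ∀ e ∈ E, bal E e.2 ≤ bal E e.1 + K) :
    ∃ R ⊆ E, (bad E R).card ≤ (K - 1) * Fintype.card V := by
  obtain ⟨R, hR, hmax⟩ := Finset.exists_max_image E.powerset
    (fun R => ∑ v, (2 * bal R v - bal E v) ^ 2) ⟨∅, by simp⟩
  rw [Finset.mem_powerset] at hR
  refine ⟨R, hR, ?_⟩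
  have key : ∀ v : V, ((bad E R).filter (fun e => (if e ∈ R then e.1 else e.2) = v)).card
      ≤ K - 1 := by
    intro v
    set S := (bad E R).filter (fun e => (if e ∈ R then e.1 else e.2) = v) with hSdef
    have hS : ∀ e ∈ S, (e ∈ R ∧ e.1 = v ∧ e.2 ≠ v) ∨ (e ∉ R ∧ e.2 = v ∧ e.1 ≠ v) := by
      intro e he
      simp only [hSdef, bad, Finset.mem_filter] at he
      obtain ⟨⟨heE, -⟩, h2⟩ := he
      have hne := hE e heE
      by_cases heR : e ∈ R
      · simp only [heR, if_true] at h2
        exact Or.inl ⟨heR, h2, fun h => hne (h2.trans h.symm)⟩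
      · simp only [heR, if_false] at h2
        exact Or.inr ⟨heR, h2, fun h => hne (h.trans h2.symm)⟩
    obtain ⟨-, -, h3⟩ := switch_many (bal E) R v S hS
    have hsub : switch R S ⊆ E := by
      intro x hx
      simp only [switch, Finset.mem_union, Finset.mem_sdiff] at hx
      rcases hx with hx | hx
      · exact hR hx.1
      · have := hx.1
        simp only [hSdef, bad, Finset.mem_filter] at this
        exact this.1.1
    have h4 := hmax (switch R S) (by rw [Finset.mem_powerset]; exact hsub)
    have h5 : ∀ e ∈ S, 4 * ((2 * bal R v - bal E v)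
        - (2 * bal R (if e.1 = v then e.2 else e.1) - bal E (if e.1 = v then e.2 else e.1)))
        ≤ 4 * (K : ℤ) := by
      intro e he
      have h6 := hS e he
      simp only [hSdef, bad, Finset.mem_filter] at he
      obtain ⟨⟨heE, h7⟩, -⟩ := he
      have h8 := hrise e heE
      rcases h6 with ⟨heR, h9, h10⟩ | ⟨heR, h9, h10⟩
      · simp only [heR, true_and, not_true_eq_false, false_and, or_false] at h7
        simp only [h9, if_true]
        rw [h9] at h7 h8
        linarith
      · simp only [heR, false_and, not_false_eq_true, true_and, false_or] at h7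
        simp only [h10, if_false]
        rw [bal_sdiff hR, bal_sdiff hR, h9] at h7
        rw [h9] at h8
        linarith
    have h6 := Finset.sum_le_card_nsmul S _ _ h5
    rw [nsmul_eq_mul] at h6
    by_contra hcon
    have h7 : K ≤ S.card := by omega
    have h8 : (K : ℤ) ≤ S.card := by exact_mod_cast h7
    have h9 : (1 : ℤ) ≤ K := by exact_mod_cast hK
    nlinarith
  rw [Finset.card_eq_sum_card_fiberwise (f := fun e => if e ∈ R then e.1 else e.2)
    (t := Finset.univ) (fun _ _ => by simp)]
  calc ∑ v, ((bad E R).filter (fun e => (if e ∈ R then e.1 else e.2) = v)).card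
      ≤ ∑ _v : V, (K - 1) := Finset.sum_le_sum fun v _ => key v
    _ = (K - 1) * Fintype.card V := by
        rw [Finset.sum_const, Finset.card_univ, smul_eq_mul, mul_comm]

end Pool.Agent.Slir
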