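import Mathlib
import Pool.Agent.Slir.Few

/-!
A random order gives a two-colouring with at most four bad arcs per vertex.
-/

namespace Pool.Agent.Slir

open Finset

section Count

theorem succ_pow_ge (M p : ℕ) : M ^ (p + 1) + (p + 1) * M ^ p ≤ (M + 1) ^ (p + 1) := by
  induction p with
  | zero => simp
  | succ p ih =>
    calc M ^ (p + 1 + 1) + (p + 1 + 1) * M ^ (p + 1)
        ≤ (M ^ (p + 1) + (p + 1) * M ^ p) * (M + 1) := by
          have : (M ^ (p + 1) + (p + 1) * M ^ p) * (M + 1)
            = M ^ (p + 1 + 1) + (p + 1 + 1) * M ^ (p + 1) + (p + 1) * M ^ p := by ring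
          omega
      _ ≤ (M + 1) ^ (p + 1) * (M + 1) := Nat.mul_le_mul_right _ ih
      _ = (M + 1) ^ (p + 1 + 1) := by ring

theorem sum_pow_le (M d : ℕ) : (d + 1) * ∑ j ∈ range M, j ^ d ≤ M ^ (d + 1) := by
  induction M with
  | zero => simp
  | succ M ih =>
    rw [Finset.sum_range_succ, mul_add]
    exact (Nat.add_le_add_right ih _).trans (succ_pow_ge M d)

/-- Number of positions not strictly between `a` and `b`. -/
def wt {M : ℕ} (a b : Fin M) : ℕ :=
  (Finset.univ.filter (fun t : Fin M => ¬ (min a b < t ∧ t < max a b))).card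

theorem wt_le {M : ℕ} (a b : Fin M) : wt a b ≤ M :=
  (Finset.card_le_univ _).trans (by simp)

theorem wt_of_lt {M : ℕ} {a b : Fin M} (h : a < b) : wt a b + (b.1 - a.1 - 1) = M := by
  have h1 : (Finset.univ.filter (fun t : Fin M => (min a b < t ∧ t < max a b))).card
      = b.1 - a.1 - 1 := by
    rw [min_eq_left h.le, max_eq_right h.le]
    have : Finset.univ.filter (fun t : Fin M => a < t ∧ t < b) = Finset.Ioo a b := by
      ext t; simp
    rw [this, Fin.card_Ioo]
  have h2 := Finset.card_filter_add_card_filter_not (s := (Finset.univ : Finset (Fin M)))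
    (p := fun t : Fin M => (min a b < t ∧ t < max a b))
  rw [h1, Finset.card_univ, Fintype.card_fin] at h2
  unfold wt
  omega

theorem wt_comm {M : ℕ} (a b : Fin M) : wt a b = wt b a := by
  unfold wt
  rw [min_comm, max_comm]

theorem sum_gt_le {M : ℕ} (d : ℕ) (a : Fin M) :
    ∑ b ∈ Finset.univ.filter (fun b => a < b), wt a b ^ d ≤ ∑ j ∈ range (M + 1), j ^ d := by
  have hinj : Set.InjOn (fun b : Fin M => wt a b)
      (Finset.univ.filter (fun b => a < b) : Finset (Fin M)) := by
    intro b hb b' hb' hbb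
    simp only [Finset.coe_filter, Finset.mem_univ, true_and, Set.mem_ofPred_eq] at hb hb'
    have h1 := wt_of_lt hb
    have h2 := wt_of_lt hb'
    have h3 : a.1 < b.1 := hb
    have h4 : a.1 < b'.1 := hb'
    have h5 : wt a b = wt a b' := hbb
    have h6 := b.2
    have h7 := b'.2
    ext
    omega
  rw [← Finset.sum_image (f := fun j => j ^ d) (s := Finset.univ.filter (fun b => a < b))
    (g := fun b : Fin M => wt a b) hinj]
  refine Finset.sum_le_sum_of_subset ?_
  intro j hj
  rw [Finset.mem_image] at hj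
  obtain ⟨b, -, rfl⟩ := hj
  rw [Finset.mem_range]
  have := wt_le a b
  omega

theorem sum_lt_le {M : ℕ} (d : ℕ) (a : Fin M) :
    ∑ b ∈ Finset.univ.filter (fun b => b < a), wt a b ^ d ≤ ∑ j ∈ range (M + 1), j ^ d := by
  have hinj : Set.InjOn (fun b : Fin M => wt a b)
      (Finset.univ.filter (fun b => b < a) : Finset (Fin M)) := by
    intro b hb b' hb' hbb
    simp only [Finset.coe_filter, Finset.mem_univ, true_and, Set.mem_ofPred_eq] at hb hb'
    have h1 := wt_of_lt hb
    have h2 := wt_of_lt hb'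
    have h3 : b.1 < a.1 := hb
    have h4 : b'.1 < a.1 := hb'
    have h5 : wt a b = wt a b' := hbb
    rw [wt_comm b a] at h1
    rw [wt_comm b' a] at h2
    have h6 := a.2
    ext
    omega
  rw [← Finset.sum_image (f := fun j => j ^ d) (s := Finset.univ.filter (fun b => b < a))
    (g := fun b : Fin M => wt a b) hinj]
  refine Finset.sum_le_sum_of_subset ?_
  intro j hj
  rw [Finset.mem_image] at hj
  obtain ⟨b, -, rfl⟩ := hj
  rw [Finset.mem_range]
  have := wt_le a b
  omega

theorem sum_wt_le {M : ℕ} (d : ℕ) (a : Fin M) :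
    (d + 1) * ∑ b, wt a b ^ d ≤ 3 * (d + 1) * M ^ d + 2 * M ^ (d + 1) := by
  have h1 : ∑ b, wt a b ^ d = ∑ b ∈ Finset.univ.filter (fun b => a < b), wt a b ^ d
      + (∑ b ∈ Finset.univ.filter (fun b => b < a), wt a b ^ d + wt a a ^ d) := by
    rw [← Finset.sum_filter_add_sum_filter_not Finset.univ (fun b => a < b)]
    congr 1
    have h2 : Finset.univ.filter (fun b : Fin M => ¬ a < b)
        = insert a (Finset.univ.filter (fun b => b < a)) := by
      ext b
      simp only [Finset.mem_filter, Finset.mem_univ, true_and, Finset.mem_insert, not_lt]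
      constructor
      · intro h
        rcases h.lt_or_eq with h | h
        · exact Or.inr h
        · exact Or.inl h
      · rintro (h | h)
        · exact h.le
        · exact h.le
    rw [h2, Finset.sum_insert (by simp), add_comm]
  have h2 := sum_gt_le d a
  have h3 := sum_lt_le d a
  have h4 : wt a a ^ d ≤ M ^ d := Nat.pow_le_pow_left (wt_le a a) d
  have h5 : (d + 1) * ∑ j ∈ range (M + 1), j ^ d ≤ M ^ (d + 1) + (d + 1) * M ^ d := by
    rw [Finset.sum_range_succ, mul_add]
    exact Nat.add_le_add_right (sum_pow_le M d) _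
  rw [h1]
  calc (d + 1) * (∑ b ∈ Finset.univ.filter (fun b => a < b), wt a b ^ d
      + (∑ b ∈ Finset.univ.filter (fun b => b < a), wt a b ^ d + wt a a ^ d))
      ≤ (d + 1) * (∑ j ∈ range (M + 1), j ^ d + (∑ j ∈ range (M + 1), j ^ d + M ^ d)) := by
        gcongr
    _ = 2 * ((d + 1) * ∑ j ∈ range (M + 1), j ^ d) + (d + 1) * M ^ d := by ring
    _ ≤ 2 * (M ^ (d + 1) + (d + 1) * M ^ d) + (d + 1) * M ^ d := by gcongr
    _ = 3 * (d + 1) * M ^ d + 2 * M ^ (d + 1) := by ring

/-- Double counting: two functions agree up to a shift at most as often as they collide. -/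
theorem two_mul_agree_le {α : Type*} [Fintype α] [DecidableEq α] (A B : α → ℤ) (c : ℤ) :
    2 * (Finset.univ.filter (fun p : α × α => A p.1 - B p.2 = c)).card ≤
      (Finset.univ.filter (fun p : α × α => A p.1 = A p.2)).card
      + (Finset.univ.filter (fun p : α × α => B p.1 = B p.2)).card := by
  set T : Finset ℤ := Finset.univ.image A ∪ Finset.univ.image (fun b => B b + c) with hT
  have hA : ∀ a, A a ∈ T := fun a => Finset.mem_union_left _ (Finset.mem_image_of_mem A (Finset.mem_univ a))
  have hB : ∀ b, B b + c ∈ T := fun b =>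
    Finset.mem_union_right _ (Finset.mem_image_of_mem (fun b => B b + c) (Finset.mem_univ b))
  set u : ℤ → ℕ := fun j => (Finset.univ.filter (fun a => A a = j)).card with hu
  set v : ℤ → ℕ := fun j => (Finset.univ.filter (fun b => B b + c = j)).card with hv
  have h1 : (Finset.univ.filter (fun p : α × α => A p.1 - B p.2 = c)).card
      = ∑ j ∈ T, u j * v j := by
    rw [Finset.card_eq_sum_card_fiberwise (f := fun p : α × α => A p.1) (t := T)
      (fun p _ => hA p.1)]
    refine Finset.sum_congr rfl fun j _ => ?_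
    rw [hu, hv, ← Finset.card_product]
    congr 1
    ext p
    simp only [Finset.mem_filter, Finset.mem_univ, true_and, Finset.mem_product]
    constructor
    · rintro ⟨h1, h2⟩
      exact ⟨h2, by linarith⟩
    · rintro ⟨h1, h2⟩
      exact ⟨by linarith, h1⟩
  have h2 : (Finset.univ.filter (fun p : α × α => A p.1 = A p.2)).card = ∑ j ∈ T, u j * u j := by
    rw [Finset.card_eq_sum_card_fiberwise (f := fun p : α × α => A p.1) (t := T)
      (fun p _ => hA p.1)]
    refine Finset.sum_congr rfl fun j _ => ?_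
    rw [hu, ← Finset.card_product]
    congr 1
    ext p
    simp only [Finset.mem_filter, Finset.mem_univ, true_and, Finset.mem_product]
    constructor
    · rintro ⟨h1, h2⟩
      exact ⟨h2, by linarith⟩
    · rintro ⟨h1, h2⟩
      exact ⟨by linarith, h1⟩
  have h3 : (Finset.univ.filter (fun p : α × α => B p.1 = B p.2)).card = ∑ j ∈ T, v j * v j := by
    rw [Finset.card_eq_sum_card_fiberwise (f := fun p : α × α => B p.1 + c) (t := T)
      (fun p _ => hB p.1)]
    refine Finset.sum_congr rfl fun j _ => ?_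
    rw [hv, ← Finset.card_product]
    congr 1
    ext p
    simp only [Finset.mem_filter, Finset.mem_univ, true_and, Finset.mem_product]
    constructor
    · rintro ⟨h1, h2⟩
      exact ⟨h2, by linarith⟩
    · rintro ⟨h1, h2⟩
      exact ⟨by linarith, h1⟩
  rw [h1, h2, h3, Finset.mul_sum, ← Finset.sum_add_distrib]
  refine Finset.sum_le_sum fun j _ => ?_
  nlinarith [sq_nonneg ((u j : ℤ) - v j), two_mul_le_add_sq (u j) (v j)]

end Count

section Graph

variable {V : Type*} [Fintype V] [DecidableEq V]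

theorem sum_resample {α : Type*} [Fintype α] (x : V) (f : (V → α) → ℕ) :
    Fintype.card α * ∑ θ, f θ = ∑ θ : V → α, ∑ a, f (Function.update θ x a) := by
  let σ : (V → α) × α ≃ (V → α) × α :=
    { toFun := fun p => (Function.update p.1 x p.2, p.1 x)
      invFun := fun p => (Function.update p.1 x p.2, p.1 x)
      left_inv := by
        rintro ⟨θ, a⟩
        simp
      right_inv := by
        rintro ⟨θ, a⟩
        simp }
  have h1 : ∑ p : (V → α) × α, f (σ p).1 = ∑ p : (V → α) × α, f p.1 :=
    Equiv.sum_comp σ (fun p => f p.1)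
  rw [Fintype.sum_prod_type, Fintype.sum_prod_type] at h1
  simp only [Finset.sum_const, Finset.card_univ, smul_eq_mul] at h1
  rw [Finset.mul_sum, ← h1]
  rfl

/-- The part of the balanced degree of `x` in the class of forward arcs that comes from the arcs
between `x` and vertices other than `y`, if `x` gets the position `a`. -/
def part {M : ℕ} (E : Finset (V × V)) (x y : V) (θ : V → Fin M) (a : Fin M) : ℤ :=
  ((E.filter (fun e => e.1 = x ∧ e.2 ≠ y ∧ a ≤ θ e.2)).card : ℤ)
    - (E.filter (fun e => e.2 = x ∧ e.1 ≠ y ∧ θ e.1 ≤ a)).card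

omit [Fintype V] in
theorem part_congr {M : ℕ} {E : Finset (V × V)} (hE : ∀ e ∈ E, e.1 ≠ e.2) {x y : V}
    {θ θ' : V → Fin M} (h : ∀ z, z ≠ x → z ≠ y → θ z = θ' z) (a : Fin M) :
    part E x y θ a = part E x y θ' a := by
  unfold part
  congr 2
  · congr 1
    refine Finset.filter_congr fun e he => ?_
    constructor
    · rintro ⟨h1, h2, h3⟩
      refine ⟨h1, h2, ?_⟩
      rw [← h e.2 (fun h4 => hE e he (h1.trans h4.symm)) h2]
      exact h3
    · rintro ⟨h1, h2, h3⟩
      refine ⟨h1, h2, ?_⟩
      rw [h e.2 (fun h4 => hE e he (h1.trans h4.symm)) h2]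
      exact h3
  · congr 1
    refine Finset.filter_congr fun e he => ?_
    constructor
    · rintro ⟨h1, h2, h3⟩
      refine ⟨h1, h2, ?_⟩
      rw [← h e.1 (fun h4 => hE e he (h4.trans h1.symm)) h2]
      exact h3
    · rintro ⟨h1, h2, h3⟩
      refine ⟨h1, h2, ?_⟩
      rw [h e.1 (fun h4 => hE e he (h4.trans h1.symm)) h2]
      exact h3

/-- The forward arcs of `θ`. -/
def fwd {M : ℕ} (E : Finset (V × V)) (θ : V → Fin M) : Finset (V × V) :=
  E.filter (fun e => θ e.1 ≤ θ e.2)

omit [Fintype V] in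
theorem bal_fwd {M : ℕ} (E : Finset (V × V)) (θ : V → Fin M) (x y : V) :
    bal (fwd E θ) x = part E x y θ (θ x)
      + (if (x, y) ∈ E ∧ θ x ≤ θ y then 1 else 0)
      - (if (y, x) ∈ E ∧ θ y ≤ θ x then 1 else 0) := by
  have h1 : outdeg (fwd E θ) x = (E.filter (fun e => e.1 = x ∧ e.2 ≠ y ∧ θ x ≤ θ e.2)).card
      + (if (x, y) ∈ E ∧ θ x ≤ θ y then 1 else 0) := by
    have h2 : (fwd E θ).filter (fun e => e.1 = x)
        = (E.filter (fun e => e.1 = x ∧ e.2 ≠ y ∧ θ x ≤ θ e.2))
          ∪ (if (x, y) ∈ E ∧ θ x ≤ θ y then {(x, y)} else ∅) := by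
      ext ⟨p, q⟩
      split_ifs with hc
      · simp only [fwd, Finset.mem_filter, Finset.mem_union, Finset.mem_singleton, Prod.mk.injEq]
        constructor
        · rintro ⟨⟨h1, h2⟩, rfl⟩
          by_cases hq : q = y
          · exact Or.inr ⟨rfl, hq⟩
          · exact Or.inl ⟨h1, rfl, hq, h2⟩
        · rintro (⟨h1, rfl, -, h2⟩ | ⟨rfl, rfl⟩)
          · exact ⟨⟨h1, h2⟩, rfl⟩
          · exact ⟨hc, rfl⟩
      · simp only [fwd, Finset.mem_filter, Finset.union_empty]
        constructor
        · rintro ⟨⟨h1, h2⟩, rfl⟩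
          refine ⟨h1, rfl, ?_, h2⟩
          rintro rfl
          exact hc ⟨h1, h2⟩
        · rintro ⟨h1, rfl, -, h2⟩
          exact ⟨⟨h1, h2⟩, rfl⟩
    unfold outdeg
    rw [h2, Finset.card_union_of_disjoint]
    · split_ifs <;> simp
    · rw [Finset.disjoint_left]
      rintro ⟨p, q⟩ hp hq
      split_ifs at hq with hc
      · simp only [Finset.mem_filter, Finset.mem_singleton, Prod.mk.injEq] at hp hq
        exact hp.2.2.1 hq.2
      · simp at hq
  have h2 : indeg (fwd E θ) x = (E.filter (fun e => e.2 = x ∧ e.1 ≠ y ∧ θ e.1 ≤ θ x)).card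
      + (if (y, x) ∈ E ∧ θ y ≤ θ x then 1 else 0) := by
    have h2 : (fwd E θ).filter (fun e => e.2 = x)
        = (E.filter (fun e => e.2 = x ∧ e.1 ≠ y ∧ θ e.1 ≤ θ x))
          ∪ (if (y, x) ∈ E ∧ θ y ≤ θ x then {(y, x)} else ∅) := by
      ext ⟨p, q⟩
      split_ifs with hc
      · simp only [fwd, Finset.mem_filter, Finset.mem_union, Finset.mem_singleton, Prod.mk.injEq]
        constructor
        · rintro ⟨⟨k1, k2⟩, rfl⟩
          by_cases hp : p = y
          · exact Or.inr ⟨hp, rfl⟩
          · exact Or.inl ⟨k1, rfl, hp, k2⟩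
        · rintro (⟨k1, rfl, -, k2⟩ | ⟨rfl, rfl⟩)
          · exact ⟨⟨k1, k2⟩, rfl⟩
          · exact ⟨hc, rfl⟩
      · simp only [fwd, Finset.mem_filter, Finset.union_empty]
        constructor
        · rintro ⟨⟨k1, k2⟩, rfl⟩
          refine ⟨k1, rfl, ?_, k2⟩
          rintro rfl
          exact hc ⟨k1, k2⟩
        · rintro ⟨k1, rfl, -, k2⟩
          exact ⟨⟨k1, k2⟩, rfl⟩
    unfold indeg
    rw [h2, Finset.card_union_of_disjoint]
    · split_ifs <;> simp
    · rw [Finset.disjoint_left]
      rintro ⟨p, q⟩ hp hq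
      split_ifs at hq with hc
      · simp only [Finset.mem_filter, Finset.mem_singleton, Prod.mk.injEq] at hp hq
        exact hp.2.2.1 hq.1
      · simp at hq
  unfold bal part
  rw [h1, h2]
  push_cast
  ring

/-- The arcs whose ends have balanced degrees differing by at most `r` in their own class, for the
two-colouring `R`, `E \ R`. -/
def near (r : ℕ) (E R : Finset (V × V)) : Finset (V × V) :=
  E.filter (fun e => (e ∈ R ∧ |bal R e.1 - bal R e.2| ≤ r) ∨
    (e ∉ R ∧ |bal (E \ R) e.1 - bal (E \ R) e.2| ≤ r))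

omit [Fintype V] in
/-- The possible shifts for a near arc. -/
theorem near_cases {r M : ℕ} {E : Finset (V × V)} {θ : V → Fin M} {e : V × V}
    (he : e ∈ near r E (fwd E θ)) :
    (∃ k ∈ Finset.Icc (-(r : ℤ)) r,
      part E e.1 e.2 θ (θ e.1) - part E e.2 e.1 θ (θ e.2) = -2 + k) ∨
    (∃ k ∈ Finset.Icc (-(r : ℤ)) r,
      part E e.1 e.2 θ (θ e.1) - part E e.2 e.1 θ (θ e.2) =
        bal E e.1 - bal E e.2 + (if (e.2, e.1) ∈ E then 2 else 0) + k) ∨
    θ e.1 = θ e.2 := by
  obtain ⟨x, y⟩ := e
  simp only [near, Finset.mem_filter] at he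
  obtain ⟨heE, he⟩ := he
  have h1 := bal_fwd E θ x y
  have h2 := bal_fwd E θ y x
  have hsub : fwd E θ ⊆ E := Finset.filter_subset _ _
  rcases lt_trichotomy (θ x) (θ y) with h | h | h
  · left
    have hf : (x, y) ∈ fwd E θ := by
      simp only [fwd, Finset.mem_filter]
      exact ⟨heE, h.le⟩
    simp only [hf, true_and, not_true_eq_false, false_and, or_false] at he
    simp only [heE, true_and, h.le, if_true, not_le.2 h, and_false, if_false] at h1 h2
    rw [abs_le] at he
    refine ⟨bal (fwd E θ) x - bal (fwd E θ) y, Finset.mem_Icc.2 he, ?_⟩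
    dsimp only
    linarith
  · right; right
    exact h
  · right; left
    have hf : (x, y) ∉ fwd E θ := by
      simp only [fwd, Finset.mem_filter, not_and, not_le]
      exact fun _ => h
    simp only [hf, false_and, not_false_eq_true, true_and, false_or] at he
    rw [bal_sdiff hsub, bal_sdiff hsub, abs_le] at he
    simp only [h.le, and_true, not_le.2 h, and_false, if_false] at h1 h2
    refine ⟨-((bal E x - bal (fwd E θ) x) - (bal E y - bal (fwd E θ) y)),
      Finset.mem_Icc.2 ⟨by linarith [he.2], by linarith [he.1]⟩, ?_⟩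
    dsimp only
    split_ifs at h1 h2 ⊢ <;> linarith

/-- The neighbours of `x`. -/
def nbr (E : Finset (V × V)) (x : V) : Finset V :=
  Finset.univ.filter (fun z => (x, z) ∈ E ∨ (z, x) ∈ E)

theorem part_lt {M : ℕ} {E : Finset (V × V)} {x y z : V} {θ : V → Fin M} {a b : Fin M}
    (hz : z ∈ (nbr E x).erase y) (h1 : a < θ z) (h2 : θ z < b) :
    part E x y θ b < part E x y θ a := by
  simp only [nbr, Finset.mem_erase, Finset.mem_filter, Finset.mem_univ, true_and] at hz
  obtain ⟨hzy, hz⟩ := hz
  have hab : a < b := h1.trans h2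
  have hO : E.filter (fun e => e.1 = x ∧ e.2 ≠ y ∧ b ≤ θ e.2)
      ⊆ E.filter (fun e => e.1 = x ∧ e.2 ≠ y ∧ a ≤ θ e.2) := by
    intro e he
    simp only [Finset.mem_filter] at he ⊢
    exact ⟨he.1, he.2.1, he.2.2.1, hab.le.trans he.2.2.2⟩
  have hI : E.filter (fun e => e.2 = x ∧ e.1 ≠ y ∧ θ e.1 ≤ a)
      ⊆ E.filter (fun e => e.2 = x ∧ e.1 ≠ y ∧ θ e.1 ≤ b) := by
    intro e he
    simp only [Finset.mem_filter] at he ⊢
    exact ⟨he.1, he.2.1, he.2.2.1, he.2.2.2.trans hab.le⟩
  have hO' := Finset.card_le_card hO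
  have hI' := Finset.card_le_card hI
  unfold part
  rcases hz with hz | hz
  · have h3 : (E.filter (fun e => e.1 = x ∧ e.2 ≠ y ∧ b ≤ θ e.2)).card
        < (E.filter (fun e => e.1 = x ∧ e.2 ≠ y ∧ a ≤ θ e.2)).card := by
      refine Finset.card_lt_card ⟨hO, fun hcon => ?_⟩
      have h4 : (x, z) ∈ E.filter (fun e => e.1 = x ∧ e.2 ≠ y ∧ b ≤ θ e.2) := hcon (by
        simp only [Finset.mem_filter]
        exact ⟨hz, trivial, hzy, h1.le⟩)
      simp only [Finset.mem_filter] at h4
      exact absurd h2 (not_lt.2 h4.2.2.2)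
    omega
  · have h3 : (E.filter (fun e => e.2 = x ∧ e.1 ≠ y ∧ θ e.1 ≤ a)).card
        < (E.filter (fun e => e.2 = x ∧ e.1 ≠ y ∧ θ e.1 ≤ b)).card := by
      refine Finset.card_lt_card ⟨hI, fun hcon => ?_⟩
      have h4 : (z, x) ∈ E.filter (fun e => e.2 = x ∧ e.1 ≠ y ∧ θ e.1 ≤ a) := hcon (by
        simp only [Finset.mem_filter]
        exact ⟨hz, trivial, hzy, h2.le⟩)
      simp only [Finset.mem_filter] at h4
      exact absurd h1 (not_lt.2 h4.2.2.2)
    omega

theorem no_between {M : ℕ} {E : Finset (V × V)} {x y : V} {θ : V → Fin M} {a b : Fin M}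
    (h : part E x y θ a = part E x y θ b) :
    ∀ z ∈ (nbr E x).erase y, ¬ (min a b < θ z ∧ θ z < max a b) := by
  rintro z hz ⟨h1, h2⟩
  rcases le_total a b with hab | hab
  · rw [min_eq_left hab] at h1
    rw [max_eq_right hab] at h2
    exact (part_lt hz h1 h2).ne h.symm
  · rw [min_eq_right hab] at h1
    rw [max_eq_left hab] at h2
    exact (part_lt hz h1 h2).ne h

theorem card_avoid {M : ℕ} (N : Finset V) (a b : Fin M) :
    (Finset.univ.filter (fun θ : V → Fin M =>
      ∀ z ∈ N, ¬ (min a b < θ z ∧ θ z < max a b))).card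
      = wt a b ^ N.card * M ^ (Fintype.card V - N.card) := by
  have h1 : Finset.univ.filter (fun θ : V → Fin M =>
      ∀ z ∈ N, ¬ (min a b < θ z ∧ θ z < max a b))
      = Fintype.piFinset (fun v => if v ∈ N then
          Finset.univ.filter (fun t : Fin M => ¬ (min a b < t ∧ t < max a b))
        else Finset.univ) := by
    ext θ
    simp only [Finset.mem_filter, Finset.mem_univ, true_and, Fintype.mem_piFinset]
    constructor
    · intro h v
      split_ifs with hv
      · simpa using h v hv
      · simp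
    · intro h z hz
      have := h z
      rw [if_pos hz] at this
      simpa using this
  rw [h1, Fintype.card_piFinset]
  have h2 : ∀ v : V, (if v ∈ N then
          Finset.univ.filter (fun t : Fin M => ¬ (min a b < t ∧ t < max a b))
        else Finset.univ).card = if v ∈ N then wt a b else M := by
    intro v
    split_ifs
    · rfl
    · simp
  rw [Finset.prod_congr rfl (fun v _ => h2 v), Finset.prod_ite]
  simp only [Finset.prod_const]
  congr 2
  · congr 1
    ext v
    simp
  · rw [← Finset.card_univ, ← Finset.card_sdiff_of_subset (Finset.subset_univ N)]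
    congr 1
    ext v
    simp

/-- Collisions of the partial balanced degree of `x`, summed over all positions. -/
theorem collisions_le {M : ℕ} (E : Finset (V × V)) (x y : V) :
    (((nbr E x).erase y).card + 1) * ∑ θ : V → Fin M, (Finset.univ.filter
      (fun p : Fin M × Fin M => part E x y θ p.1 = part E x y θ p.2)).card
      ≤ M ^ (Fintype.card V + 1) * (3 * (((nbr E x).erase y).card + 1) + 2 * M) := by
  set N := (nbr E x).erase y with hN
  have hNV : N.card ≤ Fintype.card V := Finset.card_le_univ N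
  have h1 : ∑ θ : V → Fin M, (Finset.univ.filter
      (fun p : Fin M × Fin M => part E x y θ p.1 = part E x y θ p.2)).card
      ≤ ∑ p : Fin M × Fin M, (Finset.univ.filter (fun θ : V → Fin M =>
          ∀ z ∈ N, ¬ (min p.1 p.2 < θ z ∧ θ z < max p.1 p.2))).card := by
    calc ∑ θ : V → Fin M, (Finset.univ.filter
        (fun p : Fin M × Fin M => part E x y θ p.1 = part E x y θ p.2)).card
        ≤ ∑ θ : V → Fin M, (Finset.univ.filter
          (fun p : Fin M × Fin M =>
            ∀ z ∈ N, ¬ (min p.1 p.2 < θ z ∧ θ z < max p.1 p.2))).card := by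
          refine Finset.sum_le_sum fun θ _ => Finset.card_le_card ?_
          intro p hp
          simp only [Finset.mem_filter, Finset.mem_univ, true_and] at hp ⊢
          exact no_between hp
      _ = ∑ p : Fin M × Fin M, (Finset.univ.filter (fun θ : V → Fin M =>
          ∀ z ∈ N, ¬ (min p.1 p.2 < θ z ∧ θ z < max p.1 p.2))).card := by
          simp only [Finset.card_filter]
          rw [Finset.sum_comm]
  calc (N.card + 1) * ∑ θ : V → Fin M, (Finset.univ.filter
      (fun p : Fin M × Fin M => part E x y θ p.1 = part E x y θ p.2)).card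
      ≤ (N.card + 1) * ∑ p : Fin M × Fin M, (Finset.univ.filter (fun θ : V → Fin M =>
          ∀ z ∈ N, ¬ (min p.1 p.2 < θ z ∧ θ z < max p.1 p.2))).card :=
        Nat.mul_le_mul_left _ h1
    _ = (N.card + 1) * ∑ p : Fin M × Fin M,
          wt p.1 p.2 ^ N.card * M ^ (Fintype.card V - N.card) := by
        simp only [card_avoid]
    _ = ∑ a : Fin M, M ^ (Fintype.card V - N.card) *
          ((N.card + 1) * ∑ b : Fin M, wt a b ^ N.card) := by
        rw [Fintype.sum_prod_type, Finset.mul_sum]
        refine Finset.sum_congr rfl fun a _ => ?_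
        rw [← Finset.sum_mul]
        ring
    _ ≤ ∑ _a : Fin M, M ^ (Fintype.card V - N.card) *
          (3 * (N.card + 1) * M ^ N.card + 2 * M ^ (N.card + 1)) :=
        Finset.sum_le_sum fun a _ => Nat.mul_le_mul_left _ (sum_wt_le N.card a)
    _ = M ^ (Fintype.card V + 1) * (3 * (N.card + 1) + 2 * M) := by
        rw [Finset.sum_const, Finset.card_univ, Fintype.card_fin, smul_eq_mul]
        obtain ⟨k, hk⟩ := Nat.exists_eq_add_of_le hNV
        rw [hk, Nat.add_sub_cancel_left]
        ring

/-- The number of positions at which the partial balanced degrees of `x`, `y` differ by `c`. -/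
theorem agree_le {M : ℕ} {E : Finset (V × V)} (hE : ∀ e ∈ E, e.1 ≠ e.2) {x y : V} (hxy : x ≠ y)
    (c : ℤ) :
    2 * (M * (M * (Finset.univ.filter (fun θ : V → Fin M =>
      part E x y θ (θ x) - part E y x θ (θ y) = c)).card)) ≤
      ∑ θ : V → Fin M, (Finset.univ.filter
        (fun p : Fin M × Fin M => part E x y θ p.1 = part E x y θ p.2)).card
      + ∑ θ : V → Fin M, (Finset.univ.filter
        (fun p : Fin M × Fin M => part E y x θ p.1 = part E y x θ p.2)).card := by
  have h1 : M * (M * (Finset.univ.filter (fun θ : V → Fin M =>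
      part E x y θ (θ x) - part E y x θ (θ y) = c)).card)
      = ∑ θ : V → Fin M, (Finset.univ.filter
        (fun p : Fin M × Fin M => part E x y θ p.1 - part E y x θ p.2 = c)).card := by
    rw [Finset.card_filter]
    have h2 := sum_resample x (fun θ : V → Fin M =>
      if part E x y θ (θ x) - part E y x θ (θ y) = c then 1 else 0)
    rw [Fintype.card_fin] at h2
    rw [h2]
    have h3 := sum_resample y (fun θ : V → Fin M => ∑ a,
      if part E x y (Function.update θ x a) (Function.update θ x a x)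
        - part E y x (Function.update θ x a) (Function.update θ x a y) = c then 1 else 0)
    rw [Fintype.card_fin] at h3
    rw [h3]
    refine Finset.sum_congr rfl fun θ _ => ?_
    rw [Finset.card_filter, Fintype.sum_prod_type, Finset.sum_comm]
    refine Finset.sum_congr rfl fun a _ => Finset.sum_congr rfl fun b _ => ?_
    have h4 : part E x y (Function.update (Function.update θ y b) x a)
        (Function.update (Function.update θ y b) x a x) = part E x y θ a := by
      rw [Function.update_self]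
      refine part_congr hE (fun z hz1 hz2 => ?_) a
      rw [Function.update_of_ne hz1, Function.update_of_ne hz2]
    have h5 : part E y x (Function.update (Function.update θ y b) x a)
        (Function.update (Function.update θ y b) x a y) = part E y x θ b := by
      rw [Function.update_of_ne hxy.symm, Function.update_self]
      refine part_congr hE (fun z hz1 hz2 => ?_) b
      rw [Function.update_of_ne hz2, Function.update_of_ne hz1]
    rw [h4, h5]
  rw [h1, Finset.mul_sum, ← Finset.sum_add_distrib]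
  exact Finset.sum_le_sum fun θ _ => two_mul_agree_le _ _ c

theorem nbr_erase_card {E : Finset (V × V)} {x y : V} (h : y ∈ nbr E x) :
    ((nbr E x).erase y).card + 1 = (nbr E x).card := Finset.card_erase_add_one h

theorem collisions_real {M : ℕ} {E : Finset (V × V)} {x y : V} (h : y ∈ nbr E x) :
    ((∑ θ : V → Fin M, (Finset.univ.filter
      (fun p : Fin M × Fin M => part E x y θ p.1 = part E x y θ p.2)).card : ℕ) : ℝ)
      ≤ (M : ℝ) ^ (Fintype.card V + 1) * (3 + 2 * M / (nbr E x).card) := by
  have h1 := collisions_le (M := M) E x y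
  rw [nbr_erase_card h] at h1
  have h2 : (0 : ℝ) < (nbr E x).card := by
    exact_mod_cast Finset.card_pos.2 ⟨y, h⟩
  have h3 : ((nbr E x).card : ℝ) * ((∑ θ : V → Fin M, (Finset.univ.filter
      (fun p : Fin M × Fin M => part E x y θ p.1 = part E x y θ p.2)).card : ℕ) : ℝ)
      ≤ (M : ℝ) ^ (Fintype.card V + 1) * (3 * (nbr E x).card + 2 * M) := by
    exact_mod_cast h1
  rw [← mul_le_mul_iff_right₀ h2]
  refine h3.trans (le_of_eq ?_)
  field_simp

theorem agree_real {M : ℕ} (hM : 0 < M) {E : Finset (V × V)} (hE : ∀ e ∈ E, e.1 ≠ e.2) {x y : V}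
    (hxy : (x, y) ∈ E) (c : ℤ) :
    ((Finset.univ.filter (fun θ : V → Fin M =>
      part E x y θ (θ x) - part E y x θ (θ y) = c)).card : ℝ) ≤
      (M : ℝ) ^ (Fintype.card V) * (3 / M + 1 / (nbr E x).card + 1 / (nbr E y).card) := by
  have hx : y ∈ nbr E x := by simp [nbr, hxy]
  have hy : x ∈ nbr E y := by simp [nbr, hxy]
  have h1 := agree_le (M := M) hE (hE _ hxy) c
  have h2 := collisions_real (M := M) hx
  have h3 := collisions_real (M := M) hy
  have h4 : 2 * ((M : ℝ) * (M * ((Finset.univ.filter (fun θ : V → Fin M =>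
      part E x y θ (θ x) - part E y x θ (θ y) = c)).card : ℝ))) ≤
      ((∑ θ : V → Fin M, (Finset.univ.filter
        (fun p : Fin M × Fin M => part E x y θ p.1 = part E x y θ p.2)).card : ℕ) : ℝ)
      + ((∑ θ : V → Fin M, (Finset.univ.filter
        (fun p : Fin M × Fin M => part E y x θ p.1 = part E y x θ p.2)).card : ℕ) : ℝ) := by
    exact_mod_cast h1
  have hM' : (0 : ℝ) < M := by exact_mod_cast hM
  have hx' : (0 : ℝ) < (nbr E x).card := by exact_mod_cast Finset.card_pos.2 ⟨y, hx⟩
  have hy' : (0 : ℝ) < (nbr E y).card := by exact_mod_cast Finset.card_pos.2 ⟨x, hy⟩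
  have h5 : (0 : ℝ) < 2 * M * M := by positivity
  rw [← mul_le_mul_iff_right₀ h5]
  calc 2 * (M : ℝ) * M * ((Finset.univ.filter (fun θ : V → Fin M =>
      part E x y θ (θ x) - part E y x θ (θ y) = c)).card : ℝ)
      = 2 * ((M : ℝ) * (M * ((Finset.univ.filter (fun θ : V → Fin M =>
      part E x y θ (θ x) - part E y x θ (θ y) = c)).card : ℝ))) := by ring
    _ ≤ (M : ℝ) ^ (Fintype.card V + 1) * (3 + 2 * M / (nbr E x).card)
        + (M : ℝ) ^ (Fintype.card V + 1) * (3 + 2 * M / (nbr E y).card) := by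
        linarith
    _ = 2 * (M : ℝ) * M * ((M : ℝ) ^ (Fintype.card V) *
        (3 / M + 1 / (nbr E x).card + 1 / (nbr E y).card)) := by
        field_simp
        ring

theorem tie_real {M : ℕ} (hM : 0 < M) {x y : V} (hxy : x ≠ y) :
    ((Finset.univ.filter (fun θ : V → Fin M => θ x = θ y)).card : ℝ)
      = (M : ℝ) ^ (Fintype.card V) * (1 / M) := by
  have h1 : M * (Finset.univ.filter (fun θ : V → Fin M => θ x = θ y)).card
      = M ^ Fintype.card V := by
    rw [Finset.card_filter]
    have h2 := sum_resample x (fun θ : V → Fin M => if θ x = θ y then 1 else 0)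
    rw [Fintype.card_fin] at h2
    rw [h2]
    have h3 : ∀ θ : V → Fin M, ∑ a, (if Function.update θ x a x = Function.update θ x a y
        then 1 else 0) = 1 := by
      intro θ
      simp only [Function.update_self, Function.update_of_ne hxy.symm]
      simp
    rw [Finset.sum_congr rfl (fun θ _ => h3 θ)]
    simp
  have hM' : (0 : ℝ) < M := by exact_mod_cast hM
  have h2 : (M : ℝ) * ((Finset.univ.filter (fun θ : V → Fin M => θ x = θ y)).card : ℝ)
      = (M : ℝ) ^ Fintype.card V := by exact_mod_cast h1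
  rw [← h2]
  field_simp

theorem outdeg_eq (E : Finset (V × V)) (v : V) :
    outdeg E v = (Finset.univ.filter (fun z => (v, z) ∈ E)).card := by
  unfold outdeg
  refine Finset.card_bij (fun e _ => e.2) ?_ ?_ ?_
  · rintro ⟨p, q⟩ he
    simp only [Finset.mem_filter] at he
    obtain ⟨he, rfl⟩ := he
    simp [he]
  · rintro ⟨p, q⟩ he ⟨p', q'⟩ he' h
    simp only [Finset.mem_filter] at he he'
    simp only at h
    rw [Prod.mk.injEq]
    exact ⟨he.2.trans he'.2.symm, h⟩
  · intro z hz
    simp only [Finset.mem_filter, Finset.mem_univ, true_and] at hz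
    exact ⟨(v, z), by simp [hz], rfl⟩

theorem indeg_eq (E : Finset (V × V)) (v : V) :
    indeg E v = (Finset.univ.filter (fun z => (z, v) ∈ E)).card := by
  unfold indeg
  refine Finset.card_bij (fun e _ => e.1) ?_ ?_ ?_
  · rintro ⟨p, q⟩ he
    simp only [Finset.mem_filter] at he
    obtain ⟨he, rfl⟩ := he
    simp [he]
  · rintro ⟨p, q⟩ he ⟨p', q'⟩ he' h
    simp only [Finset.mem_filter] at he he'
    simp only at h
    rw [Prod.mk.injEq]
    exact ⟨h, he.2.trans he'.2.symm⟩
  · intro z hz
    simp only [Finset.mem_filter, Finset.mem_univ, true_and] at hz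
    exact ⟨(z, v), by simp [hz], rfl⟩

/-- The vertices that lie on a 2-cycle. -/
def twoCyc (E : Finset (V × V)) : Finset V :=
  Finset.univ.filter (fun v => ∃ w, (v, w) ∈ E ∧ (w, v) ∈ E)

theorem deg_le (E : Finset (V × V)) (v : V) :
    outdeg E v + indeg E v ≤ (1 + if v ∈ twoCyc E then 1 else 0) * (nbr E v).card := by
  rw [outdeg_eq, indeg_eq]
  have h1 : (Finset.univ.filter (fun z => (v, z) ∈ E)) ⊆ nbr E v := by
    intro z hz
    simp only [nbr, Finset.mem_filter, Finset.mem_univ, true_and] at hz ⊢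
    exact Or.inl hz
  have h2 : (Finset.univ.filter (fun z => (z, v) ∈ E)) ⊆ nbr E v := by
    intro z hz
    simp only [nbr, Finset.mem_filter, Finset.mem_univ, true_and] at hz ⊢
    exact Or.inr hz
  split_ifs with hv
  · have h3 := Finset.card_le_card h1
    have h4 := Finset.card_le_card h2
    omega
  · rw [← Finset.card_union_of_disjoint]
    · have h3 := Finset.card_le_card (Finset.union_subset h1 h2)
      omega
    · rw [Finset.disjoint_left]
      intro z hz hz'
      simp only [twoCyc, Finset.mem_filter, Finset.mem_univ, true_and, not_exists] at hv hz hz'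
      exact hv z ⟨hz, hz'⟩

theorem sum_inv (E : Finset (V × V)) :
    ∑ e ∈ E, (1 : ℝ) / (nbr E e.1).card + ∑ e ∈ E, (1 : ℝ) / (nbr E e.2).card
      ≤ Fintype.card V + (twoCyc E).card := by
  rw [← Finset.sum_fiberwise_of_maps_to (s := E) (t := Finset.univ) (g := fun e => e.1)
    (fun _ _ => Finset.mem_univ _),
    ← Finset.sum_fiberwise_of_maps_to (s := E) (t := Finset.univ) (g := fun e => e.2)
    (fun _ _ => Finset.mem_univ _), ← Finset.sum_add_distrib]
  have h1 : ∀ v : V, ∑ e ∈ E.filter (fun e => e.1 = v), (1 : ℝ) / (nbr E e.1).card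
      + ∑ e ∈ E.filter (fun e => e.2 = v), (1 : ℝ) / (nbr E e.2).card
      ≤ 1 + if v ∈ twoCyc E then 1 else 0 := by
    intro v
    rw [Finset.sum_congr rfl (g := fun _ => (1 : ℝ) / (nbr E v).card) (fun e he => by
      rw [(Finset.mem_filter.1 he).2]),
      Finset.sum_congr (s₁ := E.filter (fun e => e.2 = v)) rfl
        (g := fun _ => (1 : ℝ) / (nbr E v).card) (fun e he => by
      rw [(Finset.mem_filter.1 he).2])]
    rw [Finset.sum_const, nsmul_eq_mul, mul_one_div, Finset.sum_const, nsmul_eq_mul, mul_one_div,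
      ← add_div]
    have h2 : ((outdeg E v + indeg E v : ℕ) : ℝ)
        ≤ (1 + if v ∈ twoCyc E then 1 else 0) * ((nbr E v).card : ℝ) := by
      have h3 := deg_le E v
      have h4 : ((outdeg E v + indeg E v : ℕ) : ℝ)
        ≤ (((1 + if v ∈ twoCyc E then 1 else 0) * (nbr E v).card : ℕ) : ℝ) := by
        exact_mod_cast h3
      refine h4.trans (le_of_eq ?_)
      push_cast
      rfl
    refine div_le_of_le_mul₀ (by positivity) (by positivity) ?_
    refine le_trans (le_of_eq ?_) h2
    push_cast
    rfl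
  calc ∑ v, (∑ e ∈ E.filter (fun e => e.1 = v), (1 : ℝ) / (nbr E e.1).card
      + ∑ e ∈ E.filter (fun e => e.2 = v), (1 : ℝ) / (nbr E e.2).card)
      ≤ ∑ v : V, ((1 : ℝ) + if v ∈ twoCyc E then 1 else 0) :=
        Finset.sum_le_sum fun v _ => h1 v
    _ = Fintype.card V + (twoCyc E).card := by
        rw [Finset.sum_add_distrib]
        simp

theorem card_not_inj {M : ℕ} (hM : 0 < M) :
    ((Finset.univ.filter (fun θ : V → Fin M => ¬ Function.Injective θ)).card : ℝ)
      ≤ (M : ℝ) ^ (Fintype.card V) * ((Fintype.card V : ℝ) ^ 2 / M) := by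
  have h1 : Finset.univ.filter (fun θ : V → Fin M => ¬ Function.Injective θ)
      ⊆ (Finset.univ.filter (fun p : V × V => p.1 ≠ p.2)).biUnion
        (fun p => Finset.univ.filter (fun θ : V → Fin M => θ p.1 = θ p.2)) := by
    intro θ hθ
    simp only [Finset.mem_filter, Finset.mem_univ, true_and] at hθ
    rw [Finset.mem_biUnion]
    simp only [Function.Injective, not_forall] at hθ
    obtain ⟨x, y, h1, h2⟩ := hθ
    exact ⟨(x, y), by simp [h2], by simp [h1]⟩
  have h2 := (Finset.card_le_card h1).trans Finset.card_biUnion_le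
  have h3 : ((Finset.univ.filter (fun θ : V → Fin M => ¬ Function.Injective θ)).card : ℝ)
      ≤ ∑ p ∈ Finset.univ.filter (fun p : V × V => p.1 ≠ p.2),
        ((Finset.univ.filter (fun θ : V → Fin M => θ p.1 = θ p.2)).card : ℝ) := by
    exact_mod_cast h2
  refine h3.trans ?_
  have h4 : ∑ p ∈ Finset.univ.filter (fun p : V × V => p.1 ≠ p.2),
        ((Finset.univ.filter (fun θ : V → Fin M => θ p.1 = θ p.2)).card : ℝ)
      = ∑ p ∈ Finset.univ.filter (fun p : V × V => p.1 ≠ p.2),
        (M : ℝ) ^ (Fintype.card V) * (1 / M) :=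
    Finset.sum_congr rfl fun p hp => tie_real hM (Finset.mem_filter.1 hp).2
  rw [h4, Finset.sum_const, nsmul_eq_mul]
  have h5 : ((Finset.univ.filter (fun p : V × V => p.1 ≠ p.2)).card : ℝ)
      ≤ (Fintype.card V : ℝ) ^ 2 := by
    have h6 : (Finset.univ.filter (fun p : V × V => p.1 ≠ p.2)).card ≤ Fintype.card (V × V) :=
      Finset.card_le_univ _
    rw [Fintype.card_prod] at h6
    rw [sq]
    exact_mod_cast h6
  have hM' : (0 : ℝ) < M := by exact_mod_cast hM
  calc ((Finset.univ.filter (fun p : V × V => p.1 ≠ p.2)).card : ℝ) *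
        ((M : ℝ) ^ (Fintype.card V) * (1 / M))
      ≤ (Fintype.card V : ℝ) ^ 2 * ((M : ℝ) ^ (Fintype.card V) * (1 / M)) :=
        mul_le_mul_of_nonneg_right h5 (by positivity)
    _ = (M : ℝ) ^ (Fintype.card V) * ((Fintype.card V : ℝ) ^ 2 / M) := by ring

theorem card_exists_le {M : ℕ} (hM : 0 < M) {E : Finset (V × V)} (hE : ∀ e ∈ E, e.1 ≠ e.2)
    {x y : V} (hxy : (x, y) ∈ E) (r : ℕ) (c : ℤ) :
    ((Finset.univ.filter (fun θ : V → Fin M => ∃ k ∈ Finset.Icc (-(r : ℤ)) r,
      part E x y θ (θ x) - part E y x θ (θ y) = c + k)).card : ℝ) ≤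
      (2 * r + 1) * ((M : ℝ) ^ (Fintype.card V) *
        (3 / M + 1 / (nbr E x).card + 1 / (nbr E y).card)) := by
  have h1 : Finset.univ.filter (fun θ : V → Fin M => ∃ k ∈ Finset.Icc (-(r : ℤ)) r,
      part E x y θ (θ x) - part E y x θ (θ y) = c + k)
      ⊆ (Finset.Icc (-(r : ℤ)) r).biUnion (fun k => Finset.univ.filter (fun θ : V → Fin M =>
        part E x y θ (θ x) - part E y x θ (θ y) = c + k)) := by
    intro θ hθ
    simp only [Finset.mem_filter, Finset.mem_univ, true_and] at hθ
    obtain ⟨k, hk, h⟩ := hθ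
    exact Finset.mem_biUnion.2 ⟨k, hk, by simp [h]⟩
  have h2 := (Finset.card_le_card h1).trans Finset.card_biUnion_le
  have h3 : ((Finset.univ.filter (fun θ : V → Fin M => ∃ k ∈ Finset.Icc (-(r : ℤ)) r,
      part E x y θ (θ x) - part E y x θ (θ y) = c + k)).card : ℝ)
      ≤ ∑ k ∈ Finset.Icc (-(r : ℤ)) r, ((Finset.univ.filter (fun θ : V → Fin M =>
        part E x y θ (θ x) - part E y x θ (θ y) = c + k)).card : ℝ) := by
    exact_mod_cast h2
  refine h3.trans ((Finset.sum_le_sum fun k _ => agree_real hM hE hxy (c + k)).trans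
    (le_of_eq ?_))
  rw [Finset.sum_const, Int.card_Icc, nsmul_eq_mul]
  congr 1
  have h4 : ((r : ℤ) + 1 - -(r : ℤ)).toNat = 2 * r + 1 := by omega
  rw [h4]
  push_cast
  ring

/-- Some linear order has few near arcs. -/
theorem exists_few_near (r : ℕ) (E : Finset (V × V)) (hE : ∀ e ∈ E, e.1 ≠ e.2) :
    ∃ (M : ℕ) (θ : V → Fin M), Function.Injective θ ∧
      (near r E (fwd E θ)).card ≤ (2 * r + 1) * (2 * (Fintype.card V + (twoCyc E).card)) := by
  set K : ℕ := (2 * r + 1) * (2 * (Fintype.card V + (twoCyc E).card)) with hK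
  set M : ℕ := 7 * (2 * r + 1) * E.card + (K + 1) * Fintype.card V ^ 2 + 1 with hMdef
  refine ⟨M, ?_⟩
  have hM : 0 < M := by omega
  have hM' : (0 : ℝ) < M := by exact_mod_cast hM
  by_contra hcon
  push Not at hcon
  have h1 : ∀ θ : V → Fin M, (K + 1 : ℝ) * (if Function.Injective θ then 1 else 0)
      ≤ ((near r E (fwd E θ)).card : ℝ) := by
    intro θ
    split_ifs with hθ
    · rw [mul_one]
      exact_mod_cast hcon θ hθ
    · simp
  have hinj : (M : ℝ) ^ Fintype.card V * (1 - (Fintype.card V : ℝ) ^ 2 / M)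
      ≤ ((Finset.univ.filter (fun θ : V → Fin M => Function.Injective θ)).card : ℝ) := by
    have h2 := card_not_inj (V := V) hM
    have h3 := Finset.card_filter_add_card_filter_not
      (s := (Finset.univ : Finset (V → Fin M))) (p := fun θ => Function.Injective θ)
    rw [Finset.card_univ, Fintype.card_fun, Fintype.card_fin] at h3
    have h4 : ((Finset.univ.filter (fun θ : V → Fin M => Function.Injective θ)).card : ℝ)
        + ((Finset.univ.filter (fun θ : V → Fin M => ¬ Function.Injective θ)).card : ℝ)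
        = (M : ℝ) ^ Fintype.card V := by
      exact_mod_cast h3
    have h5 : (M : ℝ) ^ Fintype.card V * (1 - (Fintype.card V : ℝ) ^ 2 / M)
      = (M : ℝ) ^ Fintype.card V
        - (M : ℝ) ^ Fintype.card V * ((Fintype.card V : ℝ) ^ 2 / M) := by ring
    rw [h5]
    linarith
  have h2 : (M : ℝ) ^ Fintype.card V * ((K + 1) * (1 - (Fintype.card V : ℝ) ^ 2 / M))
      ≤ ∑ θ : V → Fin M, ((near r E (fwd E θ)).card : ℝ) := by
    calc (M : ℝ) ^ Fintype.card V * ((K + 1) * (1 - (Fintype.card V : ℝ) ^ 2 / M))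
        = (K + 1) * ((M : ℝ) ^ Fintype.card V * (1 - (Fintype.card V : ℝ) ^ 2 / M)) := by ring
      _ ≤ (K + 1) * ((Finset.univ.filter
          (fun θ : V → Fin M => Function.Injective θ)).card : ℝ) :=
          mul_le_mul_of_nonneg_left hinj (by positivity)
      _ = ∑ θ : V → Fin M, (K + 1 : ℝ) * (if Function.Injective θ then 1 else 0) := by
          rw [← Finset.mul_sum]
          simp
      _ ≤ _ := Finset.sum_le_sum fun θ _ => h1 θ
  have h3 : ∑ θ : V → Fin M, (near r E (fwd E θ)).card
      = ∑ e ∈ E, (Finset.univ.filter (fun θ : V → Fin M => e ∈ near r E (fwd E θ))).card := by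
    have h4 : ∀ θ : V → Fin M, (near r E (fwd E θ)).card
        = ∑ e ∈ E, if e ∈ near r E (fwd E θ) then 1 else 0 := by
      intro θ
      rw [← Finset.card_filter]
      congr 1
      ext e
      simp only [Finset.mem_filter]
      exact ⟨fun h => ⟨(Finset.mem_filter.1 h).1, h⟩, fun h => h.2⟩
    rw [Finset.sum_congr rfl (fun θ _ => h4 θ), Finset.sum_comm]
    refine Finset.sum_congr rfl fun e _ => ?_
    rw [Finset.card_filter]
  have h5 : ∀ e ∈ E, ((Finset.univ.filter
      (fun θ : V → Fin M => e ∈ near r E (fwd E θ))).card : ℝ)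
      ≤ (M : ℝ) ^ (Fintype.card V) * ((2 * r + 1) * (7 / M + 2 * (1 / (nbr E e.1).card)
        + 2 * (1 / (nbr E e.2).card))) := by
    intro e he
    have h6 : Finset.univ.filter (fun θ : V → Fin M => e ∈ near r E (fwd E θ))
        ⊆ Finset.univ.filter (fun θ : V → Fin M => ∃ k ∈ Finset.Icc (-(r : ℤ)) r,
            part E e.1 e.2 θ (θ e.1) - part E e.2 e.1 θ (θ e.2) = -2 + k)
          ∪ (Finset.univ.filter (fun θ : V → Fin M => ∃ k ∈ Finset.Icc (-(r : ℤ)) r,
            part E e.1 e.2 θ (θ e.1) - part E e.2 e.1 θ (θ e.2) =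
              bal E e.1 - bal E e.2 + (if (e.2, e.1) ∈ E then 2 else 0) + k)
          ∪ Finset.univ.filter (fun θ : V → Fin M => θ e.1 = θ e.2)) := by
      intro θ hθ
      simp only [Finset.mem_union, Finset.mem_filter, Finset.mem_univ, true_and] at hθ ⊢
      exact near_cases hθ
    have h7 := (Finset.card_le_card h6).trans ((Finset.card_union_le _ _).trans
      (Nat.add_le_add_left (Finset.card_union_le _ _) _))
    have h8 := card_exists_le (M := M) hM hE (x := e.1) (y := e.2) he r (-2)
    have h9 := card_exists_le (M := M) hM hE (x := e.1) (y := e.2) he r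
      (bal E e.1 - bal E e.2 + (if (e.2, e.1) ∈ E then 2 else 0))
    have h10 := tie_real (M := M) hM (hE e he)
    have h11 : ((Finset.univ.filter
        (fun θ : V → Fin M => e ∈ near r E (fwd E θ))).card : ℝ)
        ≤ ((Finset.univ.filter (fun θ : V → Fin M => ∃ k ∈ Finset.Icc (-(r : ℤ)) r,
            part E e.1 e.2 θ (θ e.1) - part E e.2 e.1 θ (θ e.2) = -2 + k)).card : ℝ)
          + (((Finset.univ.filter (fun θ : V → Fin M => ∃ k ∈ Finset.Icc (-(r : ℤ)) r,
            part E e.1 e.2 θ (θ e.1) - part E e.2 e.1 θ (θ e.2) =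
              bal E e.1 - bal E e.2 + (if (e.2, e.1) ∈ E then 2 else 0) + k)).card : ℝ)
          + ((Finset.univ.filter (fun θ : V → Fin M => θ e.1 = θ e.2)).card : ℝ)) := by
      exact_mod_cast h7
    refine h11.trans ((add_le_add h8 (add_le_add h9 h10.le)).trans ?_)
    have h12 : (0 : ℝ) ≤ (M : ℝ) ^ (Fintype.card V) * (2 * r * (1 / M)) := by positivity
    have h13 : (M : ℝ) ^ (Fintype.card V) * ((2 * r + 1) * (7 / M + 2 * (1 / (nbr E e.1).card)
        + 2 * (1 / (nbr E e.2).card)))
        = (2 * r + 1) * ((M : ℝ) ^ (Fintype.card V) *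
          (3 / M + 1 / (nbr E e.1).card + 1 / (nbr E e.2).card))
        + ((2 * r + 1) * ((M : ℝ) ^ (Fintype.card V) *
          (3 / M + 1 / (nbr E e.1).card + 1 / (nbr E e.2).card))
        + (M : ℝ) ^ (Fintype.card V) * (1 / M))
        + (M : ℝ) ^ (Fintype.card V) * (2 * r * (1 / M)) := by ring
    rw [h13]
    linarith
  have h6 : (∑ θ : V → Fin M, ((near r E (fwd E θ)).card : ℝ))
      ≤ (M : ℝ) ^ (Fintype.card V) * (7 * (2 * r + 1) * E.card / M + K) := by
    have h7 : (∑ θ : V → Fin M, ((near r E (fwd E θ)).card : ℝ))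
        = ∑ e ∈ E, ((Finset.univ.filter
          (fun θ : V → Fin M => e ∈ near r E (fwd E θ))).card : ℝ) := by
      exact_mod_cast h3
    rw [h7]
    refine (Finset.sum_le_sum h5).trans ?_
    rw [← Finset.mul_sum, ← Finset.mul_sum, Finset.sum_add_distrib, Finset.sum_add_distrib,
      ← Finset.mul_sum, ← Finset.mul_sum, Finset.sum_const, nsmul_eq_mul]
    have h8 := sum_inv E
    refine mul_le_mul_of_nonneg_left ?_ (by positivity)
    have h10 : 7 * (2 * (r : ℝ) + 1) * E.card / M = (2 * r + 1) * ((E.card : ℝ) * (7 / M)) := by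
      ring
    rw [h10, hK]
    push_cast
    rw [← mul_add]
    refine mul_le_mul_of_nonneg_left ?_ (by positivity)
    linarith
  have h7 := h2.trans h6
  have h8 : (0 : ℝ) < (M : ℝ) ^ Fintype.card V := by positivity
  have h9 := le_of_mul_le_mul_left h7 h8
  have h10 : ((7 * (2 * r + 1) * E.card + (K + 1) * (Fintype.card V : ℝ) ^ 2) / M : ℝ) < 1 := by
    rw [div_lt_one hM', hMdef]
    push_cast
    linarith
  have h11 : (K + 1 : ℝ) * (1 - (Fintype.card V : ℝ) ^ 2 / M)
      = K + 1 - (K + 1) * (Fintype.card V : ℝ) ^ 2 / M := by ring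
  have h12 : ((7 * (2 * r + 1) * E.card + (K + 1) * (Fintype.card V : ℝ) ^ 2) / M : ℝ)
      = 7 * (2 * r + 1) * E.card / M + (K + 1) * (Fintype.card V : ℝ) ^ 2 / M := by ring
  rw [h11] at h9
  rw [h12] at h10
  linarith

end Graph

end Pool.Agent.Slir
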