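import Pool.Agent.Slir.Basic

/-!
Maximum directed cuts and the sharing lemma.
-/

namespace Pool.Agent.Slir

open Finset

variable {V : Type*} [DecidableEq V]

/-- A maximum directed cut. -/
theorem exists_cut [Fintype V] (L : Finset (V × V)) (hL : ∀ e ∈ L, e.1 ≠ e.2) :
    ∃ O : Finset V,
      (∀ x ∈ O, (L.filter (fun e => e.2 = x ∧ e.1 ∈ O)).card
        ≤ (L.filter (fun e => e.1 = x ∧ e.2 ∉ O)).card) ∧
      (∀ y, y ∉ O → (L.filter (fun e => e.1 = y ∧ e.2 ∉ O)).card
        ≤ (L.filter (fun e => e.2 = y ∧ e.1 ∈ O)).card) := by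
  obtain ⟨O, -, hmax⟩ := Finset.exists_max_image (Finset.univ : Finset (Finset V))
    (fun O : Finset V => (L.filter (fun e : V × V => e.1 ∈ O ∧ e.2 ∉ O)).card) ⟨∅, by simp⟩
  refine ⟨O, ?_, ?_⟩
  · intro x hx
    have h1 := hmax (O.erase x) (Finset.mem_univ _)
    have h2 : (L.filter (fun e => e.1 ∈ O ∧ e.2 ∉ O)).card
        = (L.filter (fun e => e.1 ∈ O ∧ e.1 ≠ x ∧ e.2 ∉ O)).card
          + (L.filter (fun e => e.1 = x ∧ e.2 ∉ O)).card := by
      rw [← Finset.card_union_of_disjoint]
      · congr 1
        ext e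
        simp only [mem_filter, mem_union]
        constructor
        · rintro ⟨h1, h2, h3⟩
          by_cases h : e.1 = x
          · exact Or.inr ⟨h1, h, h3⟩
          · exact Or.inl ⟨h1, h2, h, h3⟩
        · rintro (⟨h1, h2, h3, h4⟩ | ⟨h1, h2, h3⟩)
          · exact ⟨h1, h2, h4⟩
          · exact ⟨h1, h2 ▸ hx, h3⟩
      · rw [Finset.disjoint_left]
        intro e he he'
        simp only [mem_filter] at he he'
        exact he.2.2.1 he'.2.1
    have h3 : (L.filter (fun e => e.1 ∈ O.erase x ∧ e.2 ∉ O.erase x)).card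
        = (L.filter (fun e => e.1 ∈ O ∧ e.1 ≠ x ∧ e.2 ∉ O)).card
          + (L.filter (fun e => e.2 = x ∧ e.1 ∈ O)).card := by
      rw [← Finset.card_union_of_disjoint]
      · congr 1
        ext e
        simp only [mem_filter, mem_union, mem_erase, not_and_or, not_not]
        constructor
        · rintro ⟨h1, ⟨h2, h3⟩, (h4 | h4)⟩
          · exact Or.inr ⟨h1, h4, h3⟩
          · exact Or.inl ⟨h1, h3, h2, h4⟩
        · rintro (⟨h1, h2, h3, h4⟩ | ⟨h1, h2, h3⟩)
          · exact ⟨h1, ⟨h3, h2⟩, Or.inr h4⟩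
          · exact ⟨h1, ⟨fun h => hL e h1 (h.trans h2.symm), h3⟩, Or.inl h2⟩
      · rw [Finset.disjoint_left]
        intro e he he'
        simp only [mem_filter] at he he'
        exact he.2.2.2 (he'.2.1 ▸ hx)
    omega
  · intro y hy
    have h1 := hmax (insert y O) (Finset.mem_univ _)
    have h2 : (L.filter (fun e => e.1 ∈ O ∧ e.2 ∉ O)).card
        = (L.filter (fun e => e.1 ∈ O ∧ e.2 ≠ y ∧ e.2 ∉ O)).card
          + (L.filter (fun e => e.2 = y ∧ e.1 ∈ O)).card := by
      rw [← Finset.card_union_of_disjoint]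
      · congr 1
        ext e
        simp only [mem_filter, mem_union]
        constructor
        · rintro ⟨h1, h2, h3⟩
          by_cases h : e.2 = y
          · exact Or.inr ⟨h1, h, h2⟩
          · exact Or.inl ⟨h1, h2, h, h3⟩
        · rintro (⟨h1, h2, h3, h4⟩ | ⟨h1, h2, h3⟩)
          · exact ⟨h1, h2, h4⟩
          · exact ⟨h1, h3, h2 ▸ hy⟩
      · rw [Finset.disjoint_left]
        intro e he he'
        simp only [mem_filter] at he he'
        exact he.2.2.1 he'.2.1
    have h3 : (L.filter (fun e => e.1 ∈ insert y O ∧ e.2 ∉ insert y O)).card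
        = (L.filter (fun e => e.1 ∈ O ∧ e.2 ≠ y ∧ e.2 ∉ O)).card
          + (L.filter (fun e => e.1 = y ∧ e.2 ∉ O)).card := by
      rw [← Finset.card_union_of_disjoint]
      · congr 1
        ext e
        simp only [mem_filter, mem_union, mem_insert, not_or]
        constructor
        · rintro ⟨h1, (h2 | h2), h3, h4⟩
          · exact Or.inr ⟨h1, h2, h4⟩
          · exact Or.inl ⟨h1, h2, h3, h4⟩
        · rintro (⟨h1, h2, h3, h4⟩ | ⟨h1, h2, h3⟩)
          · exact ⟨h1, Or.inr h2, h3, h4⟩
          · exact ⟨h1, Or.inl h2, fun h => hL e h1 (h2.trans h.symm), h3⟩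
      · rw [Finset.disjoint_left]
        intro e he he'
        simp only [mem_filter] at he he'
        exact hy (he'.2.1 ▸ he.2.1)
    omega

/-- Every arc of `H` is given to one of its ends so that every vertex gets at least half of its
arcs, rounded down. -/
theorem exists_share [Fintype V] (H : Finset (V × V)) (O : Finset V)
    (hH : ∀ e ∈ H, e.1 ∈ O ∧ e.2 ∉ O) :
    ∃ M₁ M₂ : Finset (V × V), M₁ ⊆ H ∧ M₂ ⊆ H ∧ Disjoint M₁ M₂ ∧
      (∀ x ∈ O, outdeg H x ≤ 2 * outdeg M₁ x + 1) ∧
      (∀ y, y ∉ O → indeg H y ≤ 2 * indeg M₂ y + 1) := by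
  classical
  let inc : V → Finset (V × V) := fun v => H.filter (fun e => e.1 = v ∨ e.2 = v)
  let ι := (v : V) × Fin ((inc v).card / 2)
  have hall : ∀ s : Finset ι, s.card ≤ (s.biUnion (fun i => inc i.1)).card := by
    intro s
    set W : Finset V := s.image Sigma.fst with hW
    set U : Finset (V × V) := s.biUnion (fun i => inc i.1) with hU
    have h1 : s.card ≤ ∑ v ∈ W, (inc v).card / 2 := by
      have h2 : s ⊆ W.sigma (fun v => (Finset.univ : Finset (Fin ((inc v).card / 2)))) := by
        intro i hi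
        rw [Finset.mem_sigma]
        exact ⟨Finset.mem_image_of_mem _ hi, Finset.mem_univ _⟩
      refine (Finset.card_le_card h2).trans ?_
      rw [Finset.card_sigma]
      simp
    have h3 : ∑ v ∈ W, (inc v).card ≤ 2 * U.card := by
      have h4 : ∀ v ∈ W, (inc v).card = ∑ e ∈ U, (if e.1 = v ∨ e.2 = v then 1 else 0) := by
        intro v hv
        rw [← Finset.card_filter]
        congr 1
        ext e
        simp only [inc, mem_filter]
        constructor
        · rintro ⟨he, h⟩
          refine ⟨?_, h⟩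
          obtain ⟨i, hi, rfl⟩ := Finset.mem_image.1 hv
          rw [hU, Finset.mem_biUnion]
          exact ⟨i, hi, by simp only [inc, mem_filter]; exact ⟨he, h⟩⟩
        · rintro ⟨he, h⟩
          refine ⟨?_, h⟩
          rw [hU, Finset.mem_biUnion] at he
          obtain ⟨i, -, hi⟩ := he
          simp only [inc, mem_filter] at hi
          exact hi.1
      rw [Finset.sum_congr rfl h4, Finset.sum_comm]
      have h5 : ∀ e ∈ U, ∑ v ∈ W, (if e.1 = v ∨ e.2 = v then 1 else 0) ≤ 2 := by
        intro e _
        rw [← Finset.card_filter]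
        have h6 : W.filter (fun v => e.1 = v ∨ e.2 = v) ⊆ {e.1, e.2} := by
          intro v hv
          rw [mem_filter] at hv
          simp only [mem_insert, mem_singleton]
          rcases hv.2 with h | h
          · exact Or.inl h.symm
          · exact Or.inr h.symm
        exact (Finset.card_le_card h6).trans Finset.card_le_two
      calc ∑ e ∈ U, ∑ v ∈ W, (if e.1 = v ∨ e.2 = v then 1 else 0)
          ≤ ∑ _e ∈ U, 2 := Finset.sum_le_sum h5
        _ = 2 * U.card := by rw [Finset.sum_const, smul_eq_mul, mul_comm]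
    have h7 : 2 * ∑ v ∈ W, (inc v).card / 2 ≤ ∑ v ∈ W, (inc v).card := by
      rw [Finset.mul_sum]
      refine Finset.sum_le_sum (fun v _ => ?_)
      omega
    omega
  obtain ⟨f, hf, hfm⟩ := (Finset.all_card_le_biUnion_card_iff_exists_injective
    (fun i : ι => inc i.1)).1 hall
  let T : V → Finset (V × V) := fun v => Finset.univ.image (fun j => f ⟨v, j⟩)
  have hTcard : ∀ v, (T v).card = (inc v).card / 2 := by
    intro v
    simp only [T]
    rw [Finset.card_image_of_injective]
    · simp
    · intro i j hij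
      have := hf hij
      exact eq_of_heq (Sigma.mk.inj_iff.1 this).2
  have hTsub : ∀ v, T v ⊆ inc v := by
    intro v e he
    simp only [T, mem_image, mem_univ, true_and] at he
    obtain ⟨j, rfl⟩ := he
    exact hfm ⟨v, j⟩
  have hTdisj : ∀ v w e, e ∈ T v → e ∈ T w → v = w := by
    intro v w e hv hw
    simp only [T, mem_image, mem_univ, true_and] at hv hw
    obtain ⟨j, hj⟩ := hv
    obtain ⟨k, hk⟩ := hw
    have := hf (hj.trans hk.symm)
    exact (Sigma.mk.inj_iff.1 this).1
  refine ⟨H.filter (fun e => e ∈ T e.1), H.filter (fun e => e ∈ T e.2),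
    Finset.filter_subset _ _, Finset.filter_subset _ _, ?_, ?_, ?_⟩
  · rw [Finset.disjoint_left]
    intro e he he'
    rw [mem_filter] at he he'
    have h1 := hTdisj _ _ _ he.2 he'.2
    exact (hH e he.1).2 (h1 ▸ (hH e he.1).1)
  · intro x hx
    have h1 : inc x = H.filter (fun e => e.1 = x) := by
      ext e
      simp only [inc, mem_filter]
      constructor
      · rintro ⟨he, h | h⟩
        · exact ⟨he, h⟩
        · exact absurd (h ▸ hx) (hH e he).2
      · rintro ⟨he, h⟩
        exact ⟨he, Or.inl h⟩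
    have h2 : outdeg (H.filter (fun e => e ∈ T e.1)) x = (inc x).card / 2 := by
      rw [← hTcard]
      unfold outdeg
      congr 1
      ext e
      simp only [mem_filter]
      constructor
      · rintro ⟨⟨_, h⟩, rfl⟩
        exact h
      · intro h
        have h3 := hTsub x h
        rw [h1, mem_filter] at h3
        exact ⟨⟨h3.1, h3.2.symm ▸ h⟩, h3.2⟩
    rw [h2, h1]
    unfold outdeg
    omega
  · intro y hy
    have h1 : inc y = H.filter (fun e => e.2 = y) := by
      ext e
      simp only [inc, mem_filter]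
      constructor
      · rintro ⟨he, h | h⟩
        · exact absurd (h ▸ (hH e he).1) hy
        · exact ⟨he, h⟩
      · rintro ⟨he, h⟩
        exact ⟨he, Or.inr h⟩
    have h2 : indeg (H.filter (fun e => e ∈ T e.2)) y = (inc y).card / 2 := by
      rw [← hTcard]
      unfold indeg
      congr 1
      ext e
      simp only [mem_filter]
      constructor
      · rintro ⟨⟨_, h⟩, rfl⟩
        exact h
      · intro h
        have h3 := hTsub y h
        rw [h1, mem_filter] at h3
        exact ⟨⟨h3.1, h3.2.symm ▸ h⟩, h3.2⟩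
    rw [h2, h1]
    unfold indeg
    omega

end Pool.Agent.Slir
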