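import Pool.Agent.Slir.Cut

/-!
One colour for all arcs inside the four cells of one side of the cut.
-/

namespace Pool.Agent.Slir

open Finset

variable {V : Type*} [DecidableEq V]

/-- Four cells such that every vertex of `O` has at most a quarter of its in-neighbours from `O` in
its own cell. -/
theorem exists_cells [Fintype V] (L : Finset (V × V)) (r : V → ℤ) (hr : ∀ e ∈ L, r e.1 < r e.2)
    (O : Finset V) :
    ∃ c : V → Fin 4, ∀ x, 4 * (L.filter (fun e => e.2 = x ∧ e.1 ∈ O ∧ c e.1 = c x)).card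
      ≤ (L.filter (fun e => e.2 = x ∧ e.1 ∈ O)).card := by
  have key := rec_choice (α := Fin 4) r
    (fun x g a => 4 * (L.filter (fun e => e.2 = x ∧ e.1 ∈ O ∧ g e.1 = a)).card
      ≤ (L.filter (fun e => e.2 = x ∧ e.1 ∈ O)).card) ?_ ?_
  · exact key
  · intro x g
    by_contra hcon
    push Not at hcon
    have h1 : (L.filter (fun e => e.2 = x ∧ e.1 ∈ O)).card
        = ∑ a : Fin 4, (L.filter (fun e => e.2 = x ∧ e.1 ∈ O ∧ g e.1 = a)).card := by
      rw [Finset.card_eq_sum_card_fiberwise (f := fun e : V × V => g e.1) (t := Finset.univ)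
        (fun _ _ => Finset.mem_coe.2 (Finset.mem_univ _))]
      refine Finset.sum_congr rfl (fun a _ => ?_)
      rw [Finset.filter_filter]
      congr 1
      ext e
      simp only [mem_filter, and_assoc]
    have h2 : ∑ _a : Fin 4, ((L.filter (fun e => e.2 = x ∧ e.1 ∈ O)).card + 1)
        ≤ ∑ a : Fin 4, 4 * (L.filter (fun e => e.2 = x ∧ e.1 ∈ O ∧ g e.1 = a)).card :=
      Finset.sum_le_sum (fun a _ => hcon a)
    rw [← Finset.mul_sum, ← h1] at h2
    simp only [Finset.sum_const, Finset.card_univ, Fintype.card_fin, smul_eq_mul] at h2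
    omega
  · intro x g g' a hgg' h
    have h1 : L.filter (fun e => e.2 = x ∧ e.1 ∈ O ∧ g' e.1 = a)
        = L.filter (fun e => e.2 = x ∧ e.1 ∈ O ∧ g e.1 = a) := by
      ext e
      simp only [mem_filter]
      constructor
      · rintro ⟨h1, h2, h3, h4⟩
        exact ⟨h1, h2, h3, (hgg' e.1 (h2 ▸ hr e h1)).trans h4⟩
      · rintro ⟨h1, h2, h3, h4⟩
        exact ⟨h1, h2, h3, (hgg' e.1 (h2 ▸ hr e h1)).symm.trans h4⟩
    rw [h1]
    exact h

/-- All arcs inside the four cells of the side `O` and some arcs of `M` form a strong locally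
irregular set. -/
theorem exists_side [Fintype V] (L : Finset (V × V)) (r : V → ℤ) (hr : ∀ e ∈ L, r e.1 < r e.2)
    (O : Finset V) (M : Finset (V × V)) (hM : ∀ e ∈ M, e.1 ∈ O ∧ e.2 ∉ O)
    (hd : ∀ x ∈ O, (L.filter (fun e => e.2 = x ∧ e.1 ∈ O)).card ≤ 2 * outdeg M x + 1) :
    ∃ (c : V → Fin 4) (A : Finset (V × V)),
      (∀ e ∈ L, e.1 ∈ O → e.2 ∈ O → c e.1 = c e.2 → e ∈ A) ∧
      (∀ e ∈ A, (e ∈ L ∧ e.1 ∈ O ∧ e.2 ∈ O) ∨ e ∈ M) ∧ SLI A := by
  classical
  obtain ⟨c, hc⟩ := exists_cells L r hr O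
  set G : Finset (V × V) := L.filter (fun e => e.1 ∈ O ∧ e.2 ∈ O ∧ c e.1 = c e.2) with hG
  have hGmem : ∀ e, e ∈ G ↔ e ∈ L ∧ e.1 ∈ O ∧ e.2 ∈ O ∧ c e.1 = c e.2 := by
    intro e
    rw [hG, mem_filter]
  -- the indegree inside the cells
  have hq : ∀ x ∈ O, 2 * indeg G x ≤ outdeg M x := by
    intro x hx
    have h1 : indeg G x = (L.filter (fun e => e.2 = x ∧ e.1 ∈ O ∧ c e.1 = c x)).card := by
      unfold indeg
      congr 1
      ext e
      simp only [mem_filter, hGmem]
      constructor
      · rintro ⟨⟨h1, h2, h3, h4⟩, rfl⟩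
        exact ⟨h1, rfl, h2, h4⟩
      · rintro ⟨h1, rfl, h3, h4⟩
        exact ⟨⟨h1, h3, hx, h4⟩, rfl⟩
    have h2 := hc x
    have h3 := hd x hx
    rw [← h1] at h2
    omega
  have hq0 : ∀ x, x ∉ O → indeg G x = 0 := by
    intro x hx
    unfold indeg
    rw [Finset.card_eq_zero, Finset.filter_eq_empty_iff]
    intro e he hex
    exact hx (hex ▸ ((hGmem e).1 he).2.2.1)
  -- the number of arcs of `M` at each vertex
  obtain ⟨t, ht⟩ := rec_choice (α := ℕ) r
    (fun x t a => indeg G x ≤ a ∧ a ≤ 2 * indeg G x ∧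
      ∀ e ∈ G, e.2 = x → bal G e.1 + (t e.1 : ℤ) ≠ bal G x + (a : ℤ)) (by
    intro x t
    have h1 : ((G.filter (fun e => e.2 = x)).image
        (fun e => (bal G e.1 + (t e.1 : ℤ) - bal G x).toNat)).card
          < (Finset.Icc (indeg G x) (2 * indeg G x)).card := by
      refine lt_of_le_of_lt Finset.card_image_le ?_
      rw [Nat.card_Icc]
      unfold indeg
      omega
    obtain ⟨a, ha, hna⟩ := Finset.exists_mem_notMem_of_card_lt_card h1
    rw [Finset.mem_Icc] at ha
    refine ⟨a, ha.1, ha.2, ?_⟩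
    intro e he hex heq
    apply hna
    rw [Finset.mem_image]
    refine ⟨e, by rw [mem_filter]; exact ⟨he, hex⟩, ?_⟩
    have : bal G e.1 + (t e.1 : ℤ) - bal G x = (a : ℤ) := by linarith
    rw [this]
    simp) (by
    rintro x g g' a hgg' ⟨h1, h2, h3⟩
    refine ⟨h1, h2, ?_⟩
    intro e he hex
    rw [← hgg' e.1 (hex ▸ hr e ((hGmem e).1 he).1)]
    exact h3 e he hex)
  have hT : ∀ x, ∃ T : Finset (V × V), T ⊆ M.filter (fun e => e.1 = x) ∧ T.card = t x := by
    intro x
    apply Finset.exists_subset_card_eq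
    obtain ⟨_, h2, _⟩ := ht x
    by_cases hx : x ∈ O
    · exact h2.trans (hq x hx)
    · have := hq0 x hx
      omega
  choose T hTsub hTcard using hT
  set A : Finset (V × V) := G ∪ M.filter (fun e => e ∈ T e.1) with hA
  have hAmem : ∀ e, e ∈ A ↔ e ∈ G ∨ (e ∈ M ∧ e ∈ T e.1) := by
    intro e
    exact Finset.mem_union.trans (or_congr Iff.rfl Finset.mem_filter)
  -- balanced degrees in `A`
  have hbal : ∀ x ∈ O, bal A x = bal G x + (t x : ℤ) := by
    intro x hx
    have h1 : outdeg A x = outdeg G x + t x := by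
      rw [← hTcard x]
      unfold outdeg
      rw [← Finset.card_union_of_disjoint]
      · congr 1
        ext e
        simp only [mem_filter, mem_union, hAmem]
        constructor
        · rintro ⟨h1 | h1, h2⟩
          · exact Or.inl ⟨h1, h2⟩
          · exact Or.inr (h2 ▸ h1.2)
        · rintro (h1 | h1)
          · exact ⟨Or.inl h1.1, h1.2⟩
          · have h2 := hTsub x h1
            rw [mem_filter] at h2
            exact ⟨Or.inr ⟨h2.1, h2.2.symm ▸ h1⟩, h2.2⟩
      · rw [Finset.disjoint_left]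
        intro e he he'
        rw [mem_filter] at he
        have h2 := hTsub x he'
        rw [mem_filter] at h2
        exact (hM e h2.1).2 ((hGmem e).1 he.1).2.2.1
    have h2 : indeg A x = indeg G x := by
      unfold indeg
      congr 1
      ext e
      simp only [mem_filter, hAmem]
      constructor
      · rintro ⟨h1 | h1, h2⟩
        · exact ⟨h1, h2⟩
        · exact absurd (h2 ▸ hx) (hM e h1.1).2
      · rintro ⟨h1, h2⟩
        exact ⟨Or.inl h1, h2⟩
    unfold bal
    rw [h1, h2]
    push_cast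
    ring
  refine ⟨c, A, ?_, ?_, ?_⟩
  · intro e he h1 h2 h3
    rw [hAmem, hGmem]
    exact Or.inl ⟨he, h1, h2, h3⟩
  · intro e he
    rw [hAmem, hGmem] at he
    rcases he with h | h
    · exact Or.inl ⟨h.1, h.2.1, h.2.2.1⟩
    · exact Or.inr h.1
  · intro e he
    rw [hAmem] at he
    rcases he with h | h
    · have h1 := (hGmem e).1 h
      rw [hbal e.1 h1.2.1, hbal e.2 h1.2.2.1]
      exact (ht e.2).2.2 e h rfl
    · have h1 := hM e h.1
      have h2 : 0 ≤ bal A e.1 := by
        rw [hbal e.1 h1.1]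
        have := (ht e.1).1
        unfold bal
        omega
      have h3 : bal A e.2 < 0 := by
        have h4 : outdeg A e.2 = 0 := by
          unfold outdeg
          rw [Finset.card_eq_zero, Finset.filter_eq_empty_iff]
          intro f hf hfe
          rw [hAmem] at hf
          rcases hf with hf | hf
          · exact h1.2 (hfe ▸ ((hGmem f).1 hf).2.1)
          · exact h1.2 (hfe ▸ (hM f hf.1).1)
        have h5 : 0 < indeg A e.2 := Finset.card_pos.2 ⟨e, by
          rw [mem_filter, hAmem]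
          exact ⟨Or.inr h, rfl⟩⟩
        unfold bal
        rw [h4]
        push_cast
        omega
      intro h4
      omega

/-! ### Reversal -/

/-- The reversed arc set. -/
def rev (A : Finset (V × V)) : Finset (V × V) := A.image Prod.swap

theorem mem_rev {A : Finset (V × V)} {e : V × V} : e ∈ rev A ↔ e.swap ∈ A := by
  unfold rev
  rw [Finset.mem_image]
  constructor
  · rintro ⟨f, hf, rfl⟩
    simpa using hf
  · intro h
    exact ⟨e.swap, h, by simp⟩

theorem card_rev_filter (A : Finset (V × V)) (p : V × V → Prop) [DecidablePred p] :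
    ((rev A).filter p).card = (A.filter (fun e => p e.swap)).card := by
  unfold rev
  rw [Finset.filter_image, Finset.card_image_of_injective _ Prod.swap_injective]

theorem outdeg_rev (A : Finset (V × V)) (v : V) : outdeg (rev A) v = indeg A v := by
  unfold outdeg indeg
  rw [card_rev_filter]
  simp

theorem indeg_rev (A : Finset (V × V)) (v : V) : indeg (rev A) v = outdeg A v := by
  unfold outdeg indeg
  rw [card_rev_filter]
  simp

theorem bal_rev (A : Finset (V × V)) (v : V) : bal (rev A) v = - bal A v := by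
  unfold bal
  rw [outdeg_rev, indeg_rev]
  ring

theorem SLI.rev {A : Finset (V × V)} (h : SLI A) : SLI (rev A) := by
  intro e he
  rw [mem_rev] at he
  have := h _ he
  rw [bal_rev, bal_rev]
  simp only [Prod.fst_swap, Prod.snd_swap] at this
  intro h1
  exact this (by linarith)

/-- The same as `exists_side` for the side of the heads. -/
theorem exists_side' [Fintype V] (L : Finset (V × V)) (r : V → ℤ) (hr : ∀ e ∈ L, r e.1 < r e.2)
    (O : Finset V) (M : Finset (V × V)) (hM : ∀ e ∈ M, e.1 ∈ O ∧ e.2 ∉ O)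
    (hd : ∀ y, y ∉ O → (L.filter (fun e => e.1 = y ∧ e.2 ∉ O)).card ≤ 2 * indeg M y + 1) :
    ∃ (c : V → Fin 4) (B : Finset (V × V)),
      (∀ e ∈ L, e.1 ∉ O → e.2 ∉ O → c e.1 = c e.2 → e ∈ B) ∧
      (∀ e ∈ B, (e ∈ L ∧ e.1 ∉ O ∧ e.2 ∉ O) ∨ e ∈ M) ∧ SLI B := by
  obtain ⟨c, A, h1, h2, h3⟩ := exists_side (rev L) (fun v => - r v) (by
    intro e he
    rw [mem_rev] at he
    have := hr _ he
    simp only [Prod.fst_swap, Prod.snd_swap] at this
    linarith) (Finset.univ.filter (fun v => v ∉ O)) (rev M) (by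
    intro e he
    rw [mem_rev] at he
    have := hM _ he
    simp only [Prod.fst_swap, Prod.snd_swap] at this
    simp [this]) (by
    intro x hx
    rw [mem_filter] at hx
    rw [card_rev_filter, outdeg_rev]
    simpa using hd x hx.2)
  refine ⟨c, rev A, ?_, ?_, h3.rev⟩
  · intro e he h4 h5 h6
    rw [mem_rev]
    apply h1
    · rw [mem_rev]
      simpa using he
    · simpa using h5
    · simpa using h4
    · simpa using h6.symm
  · intro e he
    rw [mem_rev] at he
    rcases h2 _ he with h | h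
    · rw [mem_rev] at h
      simp only [Prod.fst_swap, Prod.snd_swap, mem_filter, mem_univ, true_and,
        Prod.swap_swap] at h
      exact Or.inl ⟨h.1, h.2.2, h.2.1⟩
    · rw [mem_rev, Prod.swap_swap] at h
      exact Or.inr h

end Pool.Agent.Slir
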