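import Pool.Agent.Slir.Basic

/-!
If the balanced degree rises by less than `2 (l - 1)` along every arc, then the arcs can be coloured
with `l` colours so that inside every colour the balanced degree goes down along every arc.
-/

namespace Pool.Agent.Slir

open Finset

variable {V : Type*} [DecidableEq V]

/-- The balanced degree is the sum of the balanced degrees in the colours. -/
theorem bal_eq_sum {l : ℕ} (E : Finset (V × V)) (c : V × V → Fin l) (v : V) :
    bal E v = ∑ i, bal (E.filter (fun e => c e = i)) v := by
  unfold bal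
  rw [Finset.sum_sub_distrib]
  have h1 : (outdeg E v : ℤ) = ∑ i : Fin l, (outdeg (E.filter (fun e => c e = i)) v : ℤ) := by
    unfold outdeg
    rw [Finset.card_eq_sum_card_fiberwise (f := c) (t := Finset.univ)
        (fun _ _ => Finset.mem_coe.2 (Finset.mem_univ _))]
    push_cast
    refine Finset.sum_congr rfl (fun i _ => ?_)
    rw [Finset.filter_filter, Finset.filter_filter]
    congr 2
    ext e
    simp only [mem_filter]
    tauto
  have h2 : (indeg E v : ℤ) = ∑ i : Fin l, (indeg (E.filter (fun e => c e = i)) v : ℤ) := by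
    unfold indeg
    rw [Finset.card_eq_sum_card_fiberwise (f := c) (t := Finset.univ)
        (fun _ _ => Finset.mem_coe.2 (Finset.mem_univ _))]
    push_cast
    refine Finset.sum_congr rfl (fun i _ => ?_)
    rw [Finset.filter_filter, Finset.filter_filter]
    congr 2
    ext e
    simp only [mem_filter]
    tauto
  rw [h1, h2]

theorem exists_down_colouring [Fintype V] (E : Finset (V × V)) (hE : ∀ e ∈ E, e.1 ≠ e.2)
    (l : ℕ) (hl : 0 < l) :
    ∃ c : V × V → Fin l, ∀ e ∈ E, ∀ j, j ≠ c e →
      bal (E.filter (fun f => c f = j)) e.1 - bal (E.filter (fun f => c f = j)) e.2 + 2 ≤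
      bal (E.filter (fun f => c f = c e)) e.1 - bal (E.filter (fun f => c f = c e)) e.2 := by
  classical
  have : Nonempty (V × V → Fin l) := ⟨fun _ => ⟨0, hl⟩⟩
  obtain ⟨c, hc⟩ := Finite.exists_max
    (fun c : V × V → Fin l => ∑ i, ∑ v, (bal (E.filter (fun f => c f = i)) v) ^ 2)
  refine ⟨c, ?_⟩
  intro e he j hj
  set i := c e with hi
  have hne := hE e he
  -- the new colouring
  have h0 := hc (Function.update c e j)
  have hnew_j : E.filter (fun f => Function.update c e j f = j)
      = insert e (E.filter (fun f => c f = j)) := by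
    ext f
    simp only [mem_filter, mem_insert, Function.update_apply]
    by_cases hf : f = e
    · subst hf
      simp [he]
    · simp [hf]
  have hnew_i : E.filter (fun f => Function.update c e j f = i)
      = (E.filter (fun f => c f = i)).erase e := by
    ext f
    simp only [mem_filter, mem_erase, Function.update_apply]
    by_cases hf : f = e
    · subst hf
      simp [hj]
    · simp [hf]
  have hnew_o : ∀ k, k ≠ i → k ≠ j → E.filter (fun f => Function.update c e j f = k)
      = E.filter (fun f => c f = k) := by
    intro k hki hkj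
    ext f
    simp only [mem_filter, Function.update_apply]
    by_cases hf : f = e
    · subst hf
      simp [Ne.symm hkj, Ne.symm hki, ← hi]
    · simp [hf]
  have hmem_i : e ∈ E.filter (fun f => c f = i) := by simp [he, hi]
  have hnot_j : e ∉ E.filter (fun f => c f = j) := by
    simp only [mem_filter, not_and]
    intro _ h
    exact hj (h.symm)
  have hnot_i : e ∉ (E.filter (fun f => c f = i)).erase e := by simp
  have hQj := sum_sq_insert hnot_j hne
  have hQi := sum_sq_insert hnot_i hne
  have hb1 := bal_insert hnot_i e.1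
  have hb2 := bal_insert hnot_i e.2
  rw [Finset.insert_erase hmem_i] at hQi hb1 hb2
  simp only [if_true, hne, hne.symm, if_false] at hb1 hb2
  -- split the sums
  have split : ∀ g : Fin l → ℤ, ∑ k, g k = g i + g j + ∑ k ∈ (univ.erase i).erase j, g k := by
    intro g
    rw [← Finset.add_sum_erase univ g (Finset.mem_univ i),
      ← Finset.add_sum_erase (univ.erase i) g (a := j) (by simp [hj])]
    ring
  beta_reduce at h0
  rw [split, split (fun k => ∑ v, (bal (E.filter (fun f => c f = k)) v) ^ 2)] at h0
  have hrest : ∑ k ∈ (univ.erase i).erase j,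
      ∑ v, (bal (E.filter (fun f => Function.update c e j f = k)) v) ^ 2
      = ∑ k ∈ (univ.erase i).erase j, ∑ v, (bal (E.filter (fun f => c f = k)) v) ^ 2 := by
    refine Finset.sum_congr rfl (fun k hk => ?_)
    rw [Finset.mem_erase, Finset.mem_erase] at hk
    rw [hnew_o k hk.2.1 hk.1]
  rw [hrest, hnew_i, hnew_j, hQj, hQi] at h0
  linarith

theorem steep_colouring [Fintype V] (E : Finset (V × V)) (hE : ∀ e ∈ E, e.1 ≠ e.2)
    (l : ℕ) (hl : 0 < l) (h : ∀ e ∈ E, bal E e.2 - bal E e.1 < 2 * ((l : ℤ) - 1)) :
    ∃ c : V × V → Fin l, ∀ e ∈ E,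
      bal (E.filter (fun f => c f = c e)) e.2 < bal (E.filter (fun f => c f = c e)) e.1 := by
  obtain ⟨c, hc⟩ := exists_down_colouring E hE l hl
  refine ⟨c, ?_⟩
  intro e he
  have h1 := h e he
  have h2 := hc e he
  set D : Fin l → ℤ := fun k =>
    bal (E.filter (fun f => c f = k)) e.1 - bal (E.filter (fun f => c f = k)) e.2 with hD
  have h3 : bal E e.1 - bal E e.2 = ∑ k, D k := by
    rw [bal_eq_sum E c e.1, bal_eq_sum E c e.2, ← Finset.sum_sub_distrib]
  have h4 : ∑ k, D k ≤ D (c e) + ((l : ℤ) - 1) * (D (c e) - 2) := by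
    rw [← Finset.add_sum_erase univ D (Finset.mem_univ (c e))]
    have : ∑ k ∈ univ.erase (c e), D k ≤ ∑ _k ∈ univ.erase (c e), (D (c e) - 2) := by
      refine Finset.sum_le_sum (fun k hk => ?_)
      have := h2 k (Finset.ne_of_mem_erase hk)
      simp only [hD]
      linarith
    rw [Finset.sum_const, Finset.card_erase_of_mem (Finset.mem_univ _), Finset.card_univ,
      Fintype.card_fin, nsmul_eq_mul, Nat.cast_sub (by omega)] at this
    push_cast at this
    linarith
  by_contra hcon
  have h5 : D (c e) ≤ 0 := by
    simp only [hD]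
    linarith
  have hl' : (1 : ℤ) ≤ l := by exact_mod_cast hl
  nlinarith

end Pool.Agent.Slir
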